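import Mathlib

/-!
# Total cutting theorem: the full shift `{0,1}^I`
-/

noncomputable section

namespace Pool.Agent.Lib.MP_aa9b81_an.Cut

open scoped ENNReal Topology ZeroAtInfty
open Filter Topology Set

/-- The space `{0,1}^I`, with the action of `Γ` induced by its action on `I`. A point `S` is thought
of as a subset of `I`. -/
def Pow (I : Type) : Type := I → Bool

instance (I : Type) : TopologicalSpace (Pow I) := inferInstanceAs (TopologicalSpace (I → Bool))

instance (I : Type) : T2Space (Pow I) := inferInstanceAs (T2Space (I → Bool))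

instance (I : Type) : CompactSpace (Pow I) := inferInstanceAs (CompactSpace (I → Bool))

instance (I : Type) : TotallyDisconnectedSpace (Pow I) :=
  inferInstanceAs (TotallyDisconnectedSpace (I → Bool))

instance (Γ I : Type) [Group Γ] [MulAction Γ I] : MulAction Γ (Pow I) where
  smul g S := fun i => S (g⁻¹ • i)
  one_smul S := funext fun i => by
    change S ((1 : Γ)⁻¹ • i) = S i
    rw [inv_one, one_smul]
  mul_smul g h S := funext fun i => by
    change S ((g * h)⁻¹ • i) = S (h⁻¹ • g⁻¹ • i)
    rw [mul_inv_rev, mul_smul]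

lemma Pow.smul_apply {Γ I : Type} [Group Γ] [MulAction Γ I] (g : Γ) (S : Pow I) (i : I) :
    (g • S) i = S (g⁻¹ • i) := rfl

lemma Pow.continuous_eval {I : Type} (i : I) : Continuous fun S : Pow I => S i :=
  continuous_apply (A := fun _ : I => Bool) i

instance (Γ I : Type) [Group Γ] [MulAction Γ I] : ContinuousConstSMul Γ (Pow I) :=
  ⟨fun g => continuous_pi fun i => Pow.continuous_eval (g⁻¹ • i)⟩

/-- The empty set. -/
def Pow.zero (I : Type) : Pow I := fun _ => false

lemma Pow.smul_zero {Γ I : Type} [Group Γ] [MulAction Γ I] (g : Γ) :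
    g • Pow.zero I = Pow.zero I := rfl

lemma Pow.isOpen_eval {I : Type} (i : I) (b : Bool) : IsOpen {S : Pow I | S i = b} :=
  (isOpen_discrete {b}).preimage (Pow.continuous_eval i)

lemma Pow.isClosed_eval {I : Type} (i : I) (b : Bool) : IsClosed {S : Pow I | S i = b} :=
  (isClosed_discrete {b}).preimage (Pow.continuous_eval i)

end Pool.Agent.Lib.MP_aa9b81_an.Cut
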