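import Pool.Agent.Lib.MP_aa9b81_an.CutM.B
import Pool.Agent.Lib.MP_aa9b81_an.TC.Pow

/-!
# Maximal sets without forbidden subsets: definitions
-/

noncomputable section

namespace Pool.Agent.Lib.MP_aa9b81_an.Cut

open Topology Set

/-- For every point of `B`, an equivariant, locally constant and locally finite family of nonempty
finite sets of letters, the forbidden sets. -/
structure Forbidden (Γ B C : Type) [Group Γ] [TopologicalSpace B] [MulAction Γ B]
    [MulAction Γ C] where
  /-- `rel b σ` says that the set `σ` is forbidden at `b`. -/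
  rel : B → Set C → Prop
  smul : ∀ (g : Γ) b σ, rel b σ → rel (g • b) ((fun c => g • c) '' σ)
  clopen : ∀ σ, IsClopen {b | rel b σ}
  finite : ∀ b σ, rel b σ → σ.Finite
  nonempty : ∀ b σ, rel b σ → σ.Nonempty
  locallyFinite : ∀ c, {σ | c ∈ σ ∧ ∃ b, rel b σ}.Finite

section Maximal

variable {Γ B C : Type} [Group Γ] [TopologicalSpace B] [MulAction Γ B] [MulAction Γ C]

/-- The set `T` contains no set which is forbidden at `b`. -/
def Forbidden.Free (F : Forbidden Γ B C) (b : B) (T : Pow C) : Prop :=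
  ∀ σ, F.rel b σ → ∃ c ∈ σ, T c = false

lemma Forbidden.free_smul (F : Forbidden Γ B C) (g : Γ) {b : B} {T : Pow C} (h : F.Free b T) :
    F.Free (g • b) (g • T) := by
  intro σ hσ
  have h1 := F.smul g⁻¹ _ _ hσ
  rw [inv_smul_smul] at h1
  obtain ⟨_, ⟨c, hc, rfl⟩, h2⟩ := h _ h1
  exact ⟨c, hc, h2⟩

/-- The space of the pairs `(b, T)` such that `T` contains no set which is forbidden at `b` and is
maximal with this property. -/
def Forbidden.maxSets (F : Forbidden Γ B C) : InvSet Γ (B × Pow C) where
  carrier := {x | F.Free x.1 x.2 ∧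
    ∀ T, F.Free x.1 T → (∀ c, x.2 c = true → T c = true) → T = x.2}
  inv g x hx := by
    refine ⟨F.free_smul g hx.1, fun T hT hTx => ?_⟩
    have h1 : F.Free x.1 (g⁻¹ • T) := by
      have h2 := F.free_smul g⁻¹ hT
      have h3 : g⁻¹ • (g • x).1 = x.1 := inv_smul_smul g x.1
      rwa [h3] at h2
    have h2 := hx.2 (g⁻¹ • T) h1 (fun c hc => by
      rw [Pow.smul_apply, inv_inv]
      refine hTx _ ?_
      change x.2 (g⁻¹ • g • c) = true
      rwa [inv_smul_smul])
    rw [inv_smul_eq_iff] at h2
    exact h2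

end Maximal

/-- The difference of two invariant subsets. -/
def InvSet.diff {Γ P : Type} [Group Γ] [MulAction Γ P] (A A' : InvSet Γ P) : InvSet Γ P where
  carrier := A.carrier \ A'.carrier
  inv g x hx := ⟨A.inv g x hx.1, fun h => hx.2 (by
    have h1 := A'.inv g⁻¹ _ h
    rwa [inv_smul_smul] at h1)⟩

end Pool.Agent.Lib.MP_aa9b81_an.Cut
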