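import Pool.Agent.Lib.MP_aa9b81_an.Mg.G001
import Pool.Agent.Lib.MP_aa9b81_an.Mg.G030

/-!
# Total cutting theorem: one compact space suffices
-/

noncomputable section

namespace Pool.Agent.Lib.MP_aa9b81_an.Cut

open scoped ENNReal Topology ZeroAtInfty
open Filter Topology Set

/-- The subshifts of finite type over `Γ`. -/
def SIdx (Γ : Type) : Type := Σ (n : ℕ) (F : Finset Γ), Set (F → Fin n)

instance (Γ : Type) [Countable Γ] : Countable (SIdx Γ) :=
  inferInstanceAs (Countable (Σ (n : ℕ) (F : Finset Γ), Set (F → Fin n)))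

/-- The subshift of finite type with the given index. -/
def SF {Γ : Type} [Group Γ] (k : SIdx Γ) : Type := SFT Γ k.1 k.2.1 k.2.2

section Inst

variable {Γ : Type} [Group Γ] (k : SIdx Γ)

instance : TopologicalSpace (SF k) := inferInstanceAs (TopologicalSpace (SFT Γ k.1 k.2.1 k.2.2))

instance : MulAction Γ (SF k) := inferInstanceAs (MulAction Γ (SFT Γ k.1 k.2.1 k.2.2))

instance : ContinuousConstSMul Γ (SF k) :=
  inferInstanceAs (ContinuousConstSMul Γ (SFT Γ k.1 k.2.1 k.2.2))

/-- The value of a point of the subshift. -/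
def SF.ev {k : SIdx Γ} (z : SF k) (g : Γ) : Fin k.1 := z.1 g

lemma SF.ext' {k : SIdx Γ} {z z' : SF k} (h : ∀ g, z.ev g = z'.ev g) : z = z' :=
  Subtype.ext (funext h)

lemma SF.continuous_ev {k : SIdx Γ} (g : Γ) : Continuous fun z : SF k => z.ev g := by
  have h : Continuous fun z : Γ → Fin k.1 => z g := continuous_apply g
  exact h.comp continuous_subtype_val

instance : T2Space (SF k) := (SFT.isClosedEmbedding_val k.2.1 k.2.2).isEmbedding.t2Space

instance : CompactSpace (SF k) := (SFT.isClosedEmbedding_val k.2.1 k.2.2).compactSpace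

instance : TotallyDisconnectedSpace (SF k) := by
  refine ⟨fun S _ hS a ha b hb => SF.ext' fun g => ?_⟩
  have h2 := (hS.image _ (SF.continuous_ev g).continuousOn).subsingleton
  exact h2 (mem_image_of_mem _ ha) (mem_image_of_mem _ hb)

end Inst

/-- The product of all the subshifts of finite type, each with an additional isolated fixed point. -/
def UU (Γ : Type) [Group Γ] : Type := ∀ k : SIdx Γ, OP (SF k)

section UU

variable (Γ : Type) [Group Γ]

instance : TopologicalSpace (UU Γ) := inferInstanceAs (TopologicalSpace (∀ k : SIdx Γ, OP (SF k)))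

instance : T2Space (UU Γ) := inferInstanceAs (T2Space (∀ k : SIdx Γ, OP (SF k)))

instance : CompactSpace (UU Γ) := inferInstanceAs (CompactSpace (∀ k : SIdx Γ, OP (SF k)))

instance : TotallyDisconnectedSpace (UU Γ) :=
  inferInstanceAs (TotallyDisconnectedSpace (∀ k : SIdx Γ, OP (SF k)))

instance : MulAction Γ (UU Γ) where
  smul g x := fun k => g • x k
  one_smul x := funext fun k => one_smul Γ (x k)
  mul_smul g h x := funext fun k => mul_smul g h (x k)

instance : ContinuousConstSMul Γ (UU Γ) :=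
  ⟨fun g => continuous_pi fun k => (continuous_const_smul g).comp (continuous_apply k)⟩

instance : Nonempty (UU Γ) := ⟨fun _ => OP.inf⟩

variable {Γ}

/-- The coordinate functions. -/
def UU.bit (q : Σ k : SIdx Γ, Option (Γ × Fin k.1)) (x : UU Γ) : Prop :=
  match q.2 with
  | none => ∃ z, x q.1 = OP.of z
  | some a => ∃ z : SF q.1, x q.1 = OP.of z ∧ z.ev a.1 = a.2

lemma isOpenEmbedding_of (k : SIdx Γ) : IsOpenEmbedding (OP.of : SF k → OP (SF k)) :=
  OnePoint.isOpenEmbedding_coe

lemma isClosed_image_of (k : SIdx Γ) {s : Set (SF k)} (hs : IsClosed s) :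
    IsClosed ((OP.of : SF k → OP (SF k)) '' s) :=
  (hs.isCompact.image (isOpenEmbedding_of k).continuous).isClosed

lemma isClopen_bit (q : Σ k : SIdx Γ, Option (Γ × Fin k.1)) : IsClopen {x : UU Γ | UU.bit q x} := by
  have hc : Continuous fun x : UU Γ => x q.1 :=
    continuous_apply (A := fun k : SIdx Γ => OP (SF k)) q.1
  obtain ⟨k, q⟩ := q
  have hcl : ∀ s : Set (SF k), IsClopen s → IsClopen ((OP.of : SF k → OP (SF k)) '' s) :=
    fun s hs => ⟨isClosed_image_of k hs.1, (isOpenEmbedding_of k).isOpenMap s hs.2⟩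
  rcases q with _ | a
  · have h1 : {x : UU Γ | UU.bit ⟨k, none⟩ x} =
        (fun x : UU Γ => x k) ⁻¹' ((OP.of : SF k → OP (SF k)) '' univ) := by
      ext x
      constructor
      · rintro ⟨z, hz⟩
        exact ⟨z, mem_univ z, hz.symm⟩
      · rintro ⟨z, -, hz⟩
        exact ⟨z, hz.symm⟩
    rw [h1]
    exact (hcl _ isClopen_univ).preimage hc
  · have h1 : {x : UU Γ | UU.bit ⟨k, some a⟩ x} =
        (fun x : UU Γ => x k) ⁻¹' ((OP.of : SF k → OP (SF k)) '' {z | z.ev a.1 = a.2}) := by
      ext x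
      constructor
      · rintro ⟨z, hz, hza⟩
        exact ⟨z, hza, hz.symm⟩
      · rintro ⟨z, hza, hz⟩
        exact ⟨z, hz.symm, hza⟩
    rw [h1]
    refine (hcl _ ?_).preimage hc
    exact (isClopen_discrete {a.2}).preimage (SF.continuous_ev a.1)

lemma bit_separates {x y : UU Γ} (h : ∀ q, UU.bit q x ↔ UU.bit q y) : x = y := by
  funext k
  have h0 := h ⟨k, none⟩
  change (∃ z, x k = OP.of z) ↔ ∃ z, y k = OP.of z at h0
  have hcase : ∀ w : OP (SF k), w = OP.inf ∨ ∃ z, w = OP.of z := by
    intro w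
    change OnePoint (SF k) at w
    induction w using OnePoint.rec with
    | infty => exact Or.inl rfl
    | coe z => exact Or.inr ⟨z, rfl⟩
  rcases hcase (x k) with hx | ⟨z, hz⟩
  · rcases hcase (y k) with hy | hy
    · rw [hx, hy]
    · obtain ⟨z, hz⟩ := h0.2 hy
      rw [hx] at hz
      exact absurd hz.symm (OnePoint.coe_ne_infty z)
  · obtain ⟨z', hz'⟩ := h0.1 ⟨z, hz⟩
    rw [hz, hz']
    congr 1
    apply SF.ext'
    intro g
    have h1 : UU.bit ⟨k, some (g, z.ev g)⟩ y := (h ⟨k, some (g, z.ev g)⟩).1 ⟨z, hz, rfl⟩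
    obtain ⟨z'', hz'', h2⟩ := h1
    rw [hz'] at hz''
    have h3 : z' = z'' := OnePoint.coe_injective hz''
    rw [h3]
    exact h2.symm

theorem metrizable_UU [Countable Γ] : TopologicalSpace.MetrizableSpace (UU Γ) := by
  classical
  let e : UU Γ → ((Σ k : SIdx Γ, Option (Γ × Fin k.1)) → Bool) := fun x q => decide (UU.bit q x)
  have he : Continuous e := by
    refine continuous_pi fun q => ?_
    have h1 : IsClopen {x : UU Γ | UU.bit q x} := isClopen_bit q
    refine continuous_discrete_rng.2 fun b => ?_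
    rcases b with _ | _
    · have h2 : (fun x : UU Γ => decide (UU.bit q x)) ⁻¹' {false} = {x : UU Γ | UU.bit q x}ᶜ := by
        ext x
        simp
      rw [h2]
      exact h1.compl.2
    · have h2 : (fun x : UU Γ => decide (UU.bit q x)) ⁻¹' {true} = {x : UU Γ | UU.bit q x} := by
        ext x
        simp
      rw [h2]
      exact h1.2
  have hi : Function.Injective e := by
    intro x y hxy
    refine bit_separates fun q => ?_
    have h1 := congrFun hxy q
    change decide (UU.bit q x) = decide (UU.bit q y) at h1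
    exact decide_eq_decide.1 h1
  have h2 : SecondCountableTopology ((Σ k : SIdx Γ, Option (Γ × Fin k.1)) → Bool) := inferInstance
  have h3 : TopologicalSpace.MetrizableSpace ((Σ k : SIdx Γ, Option (Γ × Fin k.1)) → Bool) :=
    TopologicalSpace.metrizableSpace_of_t3_secondCountable _
  exact (he.isClosedEmbedding hi).isEmbedding.metrizableSpace

/-- The points whose `k`-th coordinate is in the subshift. -/
def VK (k : SIdx Γ) : InvSet Γ (UU Γ) where
  carrier := {x | ∃ z, x k = OP.of z}
  inv g x hx := by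
    obtain ⟨z, hz⟩ := hx
    refine ⟨g • z, ?_⟩
    change g • x k = _
    rw [hz, OP.smul_of]

lemma isClopen_VK (k : SIdx Γ) : IsClopen (VK k).carrier := isClopen_bit ⟨k, none⟩

/-- The retraction to the subshift. -/
def rK (k : SIdx Γ) (x : (VK k).Pt) : SF k := ((VK k).val_mem x).choose

lemma rK_spec (k : SIdx Γ) (x : (VK k).Pt) : (VK k).val x k = OP.of (rK k x) :=
  ((VK k).val_mem x).choose_spec

lemma of_injective (k : SIdx Γ) : Function.Injective (OP.of : SF k → OP (SF k)) :=
  OnePoint.coe_injective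

lemma rK_smul (k : SIdx Γ) (g : Γ) (x : (VK k).Pt) : rK k (g • x) = g • rK k x := by
  apply of_injective k
  rw [← rK_spec, ← OP.smul_of, ← rK_spec]
  rfl

lemma continuous_rK (k : SIdx Γ) : Continuous (rK k) := by
  rw [(isOpenEmbedding_of k).isInducing.continuous_iff]
  have h1 : (OP.of : SF k → OP (SF k)) ∘ rK k = fun x => (VK k).val x k :=
    funext fun x => (rK_spec k x).symm
  rw [h1]
  exact (continuous_apply (A := fun k : SIdx Γ => OP (SF k)) k).comp (VK k).continuous_val

open Classical in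
/-- The section. -/
def sK (k : SIdx Γ) (z : SF k) : UU Γ := fun l =>
  if h : k = l then OP.of (h ▸ z) else OP.inf

lemma sK_self (k : SIdx Γ) (z : SF k) : sK k z k = OP.of z := by
  unfold sK
  rw [dif_pos rfl]

lemma sK_ne {k l : SIdx Γ} (h : k ≠ l) (z : SF k) : sK k z l = OP.inf := dif_neg h

lemma continuous_sK (k : SIdx Γ) : Continuous (sK k) := by
  refine continuous_pi fun l => ?_
  by_cases h : k = l
  · subst h
    have h1 : (fun z : SF k => sK k z k) = OP.of := funext fun z => sK_self k z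
    rw [h1]
    exact (isOpenEmbedding_of k).continuous
  · have h1 : (fun z : SF k => sK k z l) = fun _ => OP.inf := funext fun z => sK_ne h z
    rw [h1]
    exact continuous_const

lemma sK_smul (k : SIdx Γ) (g : Γ) (z : SF k) : sK k (g • z) = g • sK k z := by
  funext l
  change sK k (g • z) l = g • sK k z l
  by_cases h : k = l
  · subst h
    rw [sK_self, sK_self, OP.smul_of]
  · rw [sK_ne h, sK_ne h]
    exact (OP.smul_inf g).symm

lemma sK_mem (k : SIdx Γ) (z : SF k) : sK k z ∈ (VK k).carrier := ⟨z, sK_self k z⟩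

lemma rK_sK (k : SIdx Γ) (z : SF k) : rK k ((VK k).pt (sK k z) (sK_mem k z)) = z := by
  apply of_injective k
  rw [← rK_spec]
  exact sK_self k z

end UU

section Retract

variable {Γ W : Type} [Group Γ] [TopologicalSpace W] [MulAction Γ W] [ContinuousConstSMul Γ W]
  [T2Space W] [LocallyCompactSpace W]

/-- The subshifts are retracts. -/
theorem sft_of_UU (h : GL1 (cp Γ (UU Γ × W)) ≤ E1 (cp Γ (UU Γ × W))) (k : SIdx Γ) :
    GL1 (cp Γ (SF k × W)) ≤ E1 (cp Γ (SF k × W)) := by
  intro u hu
  have : CompactSpace (VK k).Pt := isCompact_iff_compactSpace.1 (isClopen_VK k).1.isCompact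
  have hr : IsProperMap (Prod.map (rK k) (id : W → W)) :=
    (continuous_rK k).isProperMap.prodMap isProperMap_id
  have hre : ∀ (g : Γ) (x : (VK k).Pt × W), Prod.map (rK k) (id : W → W) (g • x) =
      g • Prod.map (rK k) (id : W → W) x := fun g x => Prod.ext (rK_smul k g x.1) rfl
  have hs : IsProperMap (Prod.map (sK k) (id : W → W)) :=
    (continuous_sK k).isProperMap.prodMap isProperMap_id
  have hse : ∀ (g : Γ) (x : SF k × W), Prod.map (sK k) (id : W → W) (g • x) =
      g • Prod.map (sK k) (id : W → W) x := fun g x => Prod.ext (sK_smul k g x.1) rfl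
  have hi : IsOpenEmbedding (Prod.map (VK k).val (id : W → W)) :=
    (IsOpen.isOpenEmbedding_subtypeVal (isClopen_VK k).2).prodMap IsOpenEmbedding.id
  have ha := BA1_mem_GL1 hr hre hu
  have hb : extUnit (extF (Prod.map (VK k).val (id : W → W)))
      (pullU (Prod.map (rK k) (id : W → W)) u) ∈ GL1 (cp Γ (UU Γ × W)) :=
    extUnit_mem_GL1 (fun a ha => extF_mem_cp hi (fun g x => rfl) a ha) ha
  have hc := BA1_mem_E1 hs hse (h hb)
  have e : pullU (Prod.map (sK k) (id : W → W)) (extUnit (extF (Prod.map (VK k).val (id : W → W)))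
      (pullU (Prod.map (rK k) (id : W → W)) u)) = u := by
    refine Units.ext (Fam.ext fun y => ?_)
    have h1 : ((pullU (Prod.map (sK k) (id : W → W))
        (extUnit (extF (Prod.map (VK k).val (id : W → W)))
        (pullU (Prod.map (rK k) (id : W → W)) u)) : (Fam Γ (SF k × W))ˣ) : Fam Γ (SF k × W)) y =
        1 + extF (Prod.map (VK k).val (id : W → W))
          (((pullU (Prod.map (rK k) (id : W → W)) u : (Fam Γ ((VK k).Pt × W))ˣ) :
            Fam Γ ((VK k).Pt × W)) - 1)
          (Prod.map (VK k).val (id : W → W) ((VK k).pt (sK k y.1) (sK_mem k y.1), y.2)) := rfl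
    rw [h1, extF_apply hi.injective, Fam.sub_apply, Fam.one_apply, add_sub_cancel]
    change (u : Fam Γ (SF k × W)) (rK k ((VK k).pt (sK k y.1) (sK_mem k y.1)), y.2) = _
    rw [rK_sK]
  rwa [e] at hc

/-- A retract of a product. -/
theorem GL1_le_E1_of_section {A B : Type} [TopologicalSpace A] [MulAction Γ A] [TopologicalSpace B]
    [MulAction Γ B] {s : A → B} {r : B → A} (hs : IsProperMap s)
    (hse : ∀ (g : Γ) x, s (g • x) = g • s x) (hr : IsProperMap r)
    (hre : ∀ (g : Γ) x, r (g • x) = g • r x) (hrs : ∀ x, r (s x) = x)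
    (h : GL1 (cp Γ B) ≤ E1 (cp Γ B)) : GL1 (cp Γ A) ≤ E1 (cp Γ A) := by
  intro u hu
  have h1 := BA1_mem_E1 hs hse (h (BA1_mem_GL1 hr hre hu))
  have e : pullU s (pullU r u) = u := by
    refine Units.ext (Fam.ext fun y => ?_)
    change (u : Fam Γ A) (r (s y)) = (u : Fam Γ A) y
    rw [hrs]
  rwa [e] at h1

end Retract

section Main

variable {Γ E : Type} [Group Γ] [Countable Γ]
  [AddCommGroup E] [Module ℝ E] [TopologicalSpace E] [T2Space E] [ContinuousAdd E]
  [ContinuousSMul ℝ E] [DistribMulAction Γ E] [SMulCommClass Γ ℝ E] [ContinuousConstSMul Γ E]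

/-- ONE SPACE SUFFICES. -/
theorem universal_suffices (Q : ConvexSpace Γ E) (hQ : AmenableAction Γ Q.Pt) (J : ℕ)
    (h : ∀ j ≥ J, GL1 (cp Γ (UU Γ × Cone Q × Cube j)) ≤ E1 (cp Γ (UU Γ × Cone Q × Cube j)))
    {j : ℕ} (hj : J ≤ j) {X : Type} [TopologicalSpace X] [T2Space X] [LocallyCompactSpace X]
    [MulAction Γ X] [ContinuousConstSMul Γ X] :
    GL1 (cp Γ (X × Cone Q × Cube j)) ≤ E1 (cp Γ (X × Cone Q × Cube j)) := by
  have hcone := cone_locallyCompact Q
  have h0 : ∀ j ≥ J, ∀ (n : ℕ) (F : Finset Γ) (P : Set (F → Fin n)),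
      GL1 (cp Γ (SFT Γ n F P × Cone Q × Cube j)) ≤ E1 (cp Γ (SFT Γ n F P × Cone Q × Cube j)) :=
    fun j hj n F P => sft_of_UU (h j hj) (⟨n, F, P⟩ : SIdx Γ)
  exact sft_suffice_total Q hQ j (h0 j hj) (h0 (j + 1) (hj.trans (Nat.le_succ j)) 1 ∅ Set.univ)

end Main

end Pool.Agent.Lib.MP_aa9b81_an.Cut
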