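import Pool.Agent.Lib.MP_aa9b81_an.Mg.G030
import Pool.Agent.Lib.MP_aa9b81_an.Mg.G032
import Pool.Agent.Lib.MP_aa9b81_an.Mg.G021
import Pool.Agent.Lib.MP_aa9b81_an.Mg.G033
import Pool.Agent.Lib.MP_aa9b81_an.TC.Univ

section
/-!
# Rotated sites, part J2: injectivity
-/

open scoped ENNReal Topology ZeroAtInfty
open Function Filter Set

noncomputable section

set_option linter.unusedSectionVars false

namespace Pool.Agent.Lib.MP_aa9b81_an.Rc

open Cut Hs

/-- PROOF: `fib i = (hpf i).toFinset`. -/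
def fibrOf {Γ C I : Type} [Group Γ] [MulAction Γ C] [MulAction Γ I] (p : C → I)
    (hp : ∀ (g : Γ) c, p (g • c) = g • p c) (hpf : ∀ i, {c | p c = i}.Finite) : Fibr Γ C I where
  p := p
  fib i := (hpf i).toFinset
  mem_fib i c := by simp
  smul := hp

section

variable {Γ E : Type} [Group Γ] [AddCommGroup E] [Module ℝ E] [TopologicalSpace E] [T2Space E]
  [ContinuousAdd E] [ContinuousSMul ℝ E] [DistribMulAction Γ E] [SMulCommClass Γ ℝ E]
  [ContinuousConstSMul Γ E] (Q : ConvexSpace Γ E)

/-- The reordering of the factors. -/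
private def J2_homeo (X L P K V : Type) [TopologicalSpace X] [TopologicalSpace L]
    [TopologicalSpace P] [TopologicalSpace K] [TopologicalSpace V] :
    ((X × L) × P) × K × V ≃ₜ (X × K × V) × (L × P) where
  toFun x := ((x.1.1.1, x.2.1, x.2.2), (x.1.1.2, x.1.2))
  invFun y := (((y.1.1, y.2.1), y.2.2), (y.1.2.1, y.1.2.2))
  left_inv _ := rfl
  right_inv _ := rfl
  continuous_toFun := by fun_prop
  continuous_invFun := by fun_prop

/-- PROOF: `(X × Cone Q × V) × (L × Q.Pt)` is homeomorphic to `((X × L) × Q.Pt) × Cone Q × V`; `GL1_le_E1_of_map` with the projection to `Q.Pt`, and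
`GL1_le_E1_of_homeomorph`. -/
theorem kill {X V L : Type} [TopologicalSpace X] [T2Space X] [LocallyCompactSpace X]
    [MulAction Γ X] [ContinuousConstSMul Γ X] [TopologicalSpace V] [T2Space V]
    [LocallyCompactSpace V] [MulAction Γ V] [ContinuousConstSMul Γ V] [TopologicalSpace L]
    [T2Space L] [LocallyCompactSpace L] [MulAction Γ L] [ContinuousConstSMul Γ L] :
    GL1 (cp Γ ((X × Cone Q × V) × (L × Q.Pt))) ≤ E1 (cp Γ ((X × Cone Q × V) × (L × Q.Pt))) := by
  have hc : LocallyCompactSpace (Cone Q) := cone_locallyCompact Q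
  have h := GL1_le_E1_of_map Q (S := (X × L) × Q.Pt) (V := V) Prod.snd continuous_snd
    (fun _ _ => rfl)
  exact GL1_le_E1_of_homeomorph (J2_homeo X L Q.Pt (Cone Q) V) (fun _ _ => rfl) h

end

/-- PROOF: `((x, w), S) ↦ ((x, S), w)`; both directions are continuous for the subspace topologies. -/
theorem exists_homeo_FX {Γ C I : Type} [Group Γ] [MulAction Γ C] [MulAction Γ I] [DecidableEq C]
    (p : C → I) (hp : ∀ (g : Γ) c, p (g • c) = g • p c) (hpf : ∀ i, {c | p c = i}.Finite)
    (X W : Type) [TopologicalSpace X] [MulAction Γ X] [TopologicalSpace W] [MulAction Γ W] :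
    ∃ h : (X × W) × (Om (fibrOf p hp hpf)).Pt ≃ₜ (FX p hp X).Pt × W,
      (∀ (g : Γ) x, h (g • x) = g • h x) ∧ ∀ x, prP (FX p hp X) W (h x) = x.1 := by
  refine ⟨⟨⟨fun x => ((FX p hp X).pt (x.1.1, (Om (fibrOf p hp hpf)).val x.2)
      ((Om (fibrOf p hp hpf)).val_mem x.2), x.1.2),
    fun y => ((((FX p hp X).val y.1).1, y.2),
      (Om (fibrOf p hp hpf)).pt ((FX p hp X).val y.1).2 ((FX p hp X).val_mem y.1)),
    fun _ => rfl, fun _ => rfl⟩, ?_, ?_⟩, fun _ _ => rfl, fun _ => rfl⟩
  · refine Continuous.prodMk ?_ (continuous_snd.comp continuous_fst)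
    refine Continuous.subtype_mk ?_ _
    exact (continuous_fst.comp continuous_fst).prodMk
      ((Om (fibrOf p hp hpf)).continuous_val.comp continuous_snd)
  · have h1 : Continuous fun y : (FX p hp X).Pt × W => (FX p hp X).val y.1 :=
      (FX p hp X).continuous_val.comp continuous_fst
    refine Continuous.prodMk ((continuous_fst.comp h1).prodMk continuous_snd) ?_
    exact Continuous.subtype_mk (continuous_snd.comp h1) _

/-- FREE, INJECTIVITY. PROOF: `classical`; `inj_Om` for `𝔉 = fibrOf p hp hpf`, `β` from `hps`, `Y = X × Cone Q × V`, `hK` = `kill`, and `exists_homeo_FX`: the pull back to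
`Y × (Om 𝔉).Pt` is the pull back by the homeomorphism of the pull back `prP`. -/
theorem free_inj {Γ C I E : Type} [Group Γ] [Countable Γ] [MulAction Γ C] [Countable C]
    [MulAction Γ I] [Countable I] (p : C → I) (hp : ∀ (g : Γ) c, p (g • c) = g • p c)
    (hps : Function.Surjective p) (hpf : ∀ i, {c | p c = i}.Finite)
    [AddCommGroup E] [Module ℝ E] [TopologicalSpace E] [T2Space E] [ContinuousAdd E]
    [ContinuousSMul ℝ E] [DistribMulAction Γ E] [SMulCommClass Γ ℝ E] [ContinuousConstSMul Γ E]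
    [LocallyConvexSpace ℝ E]
    (Q : ConvexSpace Γ E) (hA : PropA Γ) (q : I → Q.Pt) (hq : ∀ (g : Γ) i, q (g • i) = g • q i)
    {X V : Type} [TopologicalSpace X] [T2Space X] [LocallyCompactSpace X] [MulAction Γ X]
    [ContinuousConstSMul Γ X] [TopologicalSpace V] [T2Space V] [LocallyCompactSpace V]
    [MulAction Γ V] [ContinuousConstSMul Γ V] {u : (Fam Γ (X × Cone Q × V))ˣ}
    (hu : u ∈ GL1 (cp Γ (X × Cone Q × V)))
    (hu' : pullU (prP (FX p hp X) (Cone Q × V)) u ∈ E1 (cp Γ ((FX p hp X).Pt × Cone Q × V))) :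
    u ∈ E1 (cp Γ (X × Cone Q × V)) := by
  classical
  have hc : LocallyCompactSpace (Cone Q) := cone_locallyCompact Q
  obtain ⟨β⟩ : Nonempty (Bas (fibrOf p hp hpf)) :=
    ⟨⟨fun i => (hps i).choose, fun i =>
      ((fibrOf p hp hpf).mem_fib i _).2 (hps i).choose_spec⟩⟩
  obtain ⟨h, hh1, hh2⟩ := exists_homeo_FX p hp hpf X (Cone Q × V)
  refine inj_Om (Q := Q) (q := q) (𝔉 := fibrOf p hp hpf) β hA hq (fun L _ _ _ _ _ => kill Q) hu ?_
  have h1 : pullU h (pullU (prP (FX p hp X) (Cone Q × V)) u) ∈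
      E1 (cp Γ ((X × Cone Q × V) × (Om (fibrOf p hp hpf)).Pt)) :=
    E1_map (pull_norm_le h) (pull_mem_cp h.isProperMap hh1) hu'
  have h2 : pullU h (pullU (prP (FX p hp X) (Cone Q × V)) u) =
      pullU (Prod.fst : (X × Cone Q × V) × (Om (fibrOf p hp hpf)).Pt → X × Cone Q × V) u := by
    refine Units.ext (Fam.ext fun y => ?_)
    change (u : Fam Γ (X × Cone Q × V)) (prP (FX p hp X) (Cone Q × V) (h y)) =
      (u : Fam Γ (X × Cone Q × V)) y.1
    rw [hh2]
  rwa [h2] at h1

end Pool.Agent.Lib.MP_aa9b81_an.Rc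
end

end


section
/-!
# Products of finite sets, encoded by their characteristic functions: injectivity

`p : C → I` is a map of `Γ`-sets with finite fibres. The product of the fibres is the set of the
subsets of `C` which meet every fibre in exactly one point (`FX` in `TC/FX`).
-/

noncomputable section

namespace Pool.Agent.Lib.MP_aa9b81_an.Cut

open scoped ENNReal Topology ZeroAtInfty
open Filter Topology Set

/-- FREE, INJECTIVITY (proved in `Rc/J2`). -/
theorem free_inj {Γ C I E : Type} [Group Γ] [Countable Γ] [MulAction Γ C] [Countable C]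
    [MulAction Γ I] [Countable I] (p : C → I) (hp : ∀ (g : Γ) c, p (g • c) = g • p c)
    (hps : Function.Surjective p) (hpf : ∀ i, {c | p c = i}.Finite)
    [AddCommGroup E] [Module ℝ E] [TopologicalSpace E] [T2Space E] [ContinuousAdd E]
    [ContinuousSMul ℝ E] [DistribMulAction Γ E] [SMulCommClass Γ ℝ E] [ContinuousConstSMul Γ E]
    [LocallyConvexSpace ℝ E]
    (Q : ConvexSpace Γ E) (hA : PropA Γ) (q : I → Q.Pt) (hq : ∀ (g : Γ) i, q (g • i) = g • q i)
    {X V : Type} [TopologicalSpace X] [T2Space X] [LocallyCompactSpace X] [MulAction Γ X]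
    [ContinuousConstSMul Γ X] [TopologicalSpace V] [T2Space V] [LocallyCompactSpace V]
    [MulAction Γ V] [ContinuousConstSMul Γ V] {u : (Fam Γ (X × Cone Q × V))ˣ}
    (hu : u ∈ GL1 (cp Γ (X × Cone Q × V)))
    (hu' : pullU (prP (FX p hp X) (Cone Q × V)) u ∈ E1 (cp Γ ((FX p hp X).Pt × Cone Q × V))) :
    u ∈ E1 (cp Γ (X × Cone Q × V)) :=
  Rc.free_inj p hp hps hpf Q hA q hq hu hu'

end Pool.Agent.Lib.MP_aa9b81_an.Cut
end

end


section
/-!
# Products of finite sets: bijectivity by descent
-/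

noncomputable section

namespace Pool.Agent.Lib.MP_aa9b81_an.Cut

open scoped ENNReal Topology ZeroAtInfty
open Filter Topology Set

section Vertex

variable {Γ C I : Type} [Group Γ] [MulAction Γ C] [MulAction Γ I]

/-- The vertices of the cube. -/
def vtC {C : Type} (S : Pow C) : Cf C := fun c =>
  if S c = true then ⟨1, zero_le_one, le_rfl⟩ else ⟨0, le_rfl, zero_le_one⟩

lemma vtC_co {C : Type} (S : Pow C) (c : C) : (vtC S).co c = if S c = true then 1 else 0 := by
  change (((if S c = true then ⟨1, zero_le_one, le_rfl⟩ else ⟨0, le_rfl, zero_le_one⟩ :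
    Icc (0 : ℝ) 1)) : ℝ) = _
  split_ifs <;> rfl

lemma vtC_injective {C : Type} {S S' : Pow C} (hS : vtC S = vtC S') : S = S' := by
  refine funext fun c : C => ?_
  have h4 : (vtC S).co c = (vtC S').co c := by rw [hS]
  rw [vtC_co, vtC_co] at h4
  rcases h5 : S c with _ | _ <;> rcases h6 : S' c with _ | _ <;> simp_all

lemma continuous_vtC {C : Type} : Continuous (vtC : Pow C → Cf C) := by
  refine continuous_pi fun c => ?_
  exact (continuous_of_discreteTopology (f := fun b : Bool =>
    if b = true then (⟨1, zero_le_one, le_rfl⟩ : Icc (0 : ℝ) 1) else ⟨0, le_rfl, zero_le_one⟩)).comp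
      (Pow.continuous_eval (I := C) c)

variable {p : C → I} (hp : ∀ (g : Γ) c, p (g • c) = g • p c)
  (hpf : ∀ i, {c | p c = i}.Finite)

lemma vtC_mem {X : Type} [MulAction Γ X] {x : X × Pow C} (hx : x ∈ (FX p hp X).carrier) :
    (x.1, vtC x.2) ∈ (FB hp hpf X).carrier := by
  intro i
  obtain ⟨c, ⟨hc1, hc2⟩, hc3⟩ := hx i
  change ∑ c ∈ fib hpf i, (vtC x.2).co c = 1
  rw [Finset.sum_eq_single c]
  · rw [vtC_co, if_pos hc2]
  · intro c' hc' hne
    rw [vtC_co, if_neg]
    intro h
    exact hne (hc3 c' ⟨(mem_fib hpf).1 hc', h⟩)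
  · intro h
    exact absurd ((mem_fib hpf).2 hc1) h

lemma mem_FX_of_vtC {X : Type} [MulAction Γ X] {x : X} {S : Pow C}
    (h : (x, vtC S) ∈ (FB hp hpf X).carrier) : (x, S) ∈ (FX p hp X).carrier := by
  classical
  intro i
  have h1 : ∑ c ∈ fib hpf i, (vtC S).co c = 1 := h i
  have h2 : ∑ c ∈ fib hpf i, (vtC S).co c = (((fib hpf i).filter fun c => S c = true).card : ℝ) := by
    rw [Finset.card_filter]
    push_cast
    exact Finset.sum_congr rfl fun c _ => vtC_co S c
  rw [h2] at h1
  have h3 : ((fib hpf i).filter fun c => S c = true).card = 1 := by exact_mod_cast h1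
  obtain ⟨c, hc⟩ := Finset.card_eq_one.1 h3
  have hc' : ∀ c', c' ∈ fib hpf i ∧ S c' = true ↔ c' = c := by
    intro c'
    have h4 : c' ∈ (fib hpf i).filter (fun c => S c = true) ↔ c' ∈ fib hpf i ∧ S c' = true :=
      Finset.mem_filter
    refine h4.symm.trans ?_
    rw [hc, Finset.mem_singleton]
  refine ⟨c, ⟨(mem_fib hpf).1 ((hc' c).2 rfl).1, ((hc' c).2 rfl).2⟩, ?_⟩
  rintro c' ⟨h4, h5⟩
  exact (hc' c').1 ⟨(mem_fib hpf).2 h4, h5⟩

/-- The inclusion of the product of the finite sets into the product of the simplices. -/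
def cF {X : Type} [MulAction Γ X] (y : (FX p hp X).Pt) : (FB hp hpf X).Pt :=
  (FB hp hpf X).pt (((FX p hp X).val y).1, vtC ((FX p hp X).val y).2)
    (vtC_mem hp hpf ((FX p hp X).val_mem y))

lemma cF_smul {X : Type} [MulAction Γ X] (g : Γ) (y : (FX p hp X).Pt) :
    cF hp hpf (g • y) = g • cF hp hpf y := rfl

/-- The rest. -/
def FO (X : Type) [MulAction Γ X] : InvSet Γ (X × Cf C) where
  carrier := {x | x ∈ (FB hp hpf X).carrier ∧ ∃ c, x.2.co c ≠ 0 ∧ x.2.co c ≠ 1}
  inv g x hx := by
    refine ⟨(FB hp hpf X).inv g x hx.1, ?_⟩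
    obtain ⟨c, hc⟩ := hx.2
    refine ⟨g • c, ?_⟩
    change x.2.co (g⁻¹ • g • c) ≠ 0 ∧ x.2.co (g⁻¹ • g • c) ≠ 1
    rw [inv_smul_smul]
    exact hc

lemma FO_subset (X : Type) [MulAction Γ X] :
    (FO hp hpf X).carrier ⊆ (FB hp hpf X).carrier := fun _ h => h.1

/-- The inclusion of the rest. -/
def oF (X : Type) [MulAction Γ X] : (FO hp hpf X).Pt → (FB hp hpf X).Pt :=
  InvSet.incl (FO_subset hp hpf X)

lemma injective_cF (X : Type) [MulAction Γ X] :
    Function.Injective (cF (X := X) hp hpf) := by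
  intro y y' h
  apply (FX p hp X).val_injective
  have h2 : ((FX p hp X).val y).1 = ((FX p hp X).val y').1 :=
    congrArg (fun z => ((FB hp hpf X).val z).1) h
  have h3 : vtC ((FX p hp X).val y).2 = vtC ((FX p hp X).val y').2 :=
    congrArg (fun z => ((FB hp hpf X).val z).2) h
  exact Prod.ext h2 (vtC_injective h3)

lemma range_oF (X : Type) [MulAction Γ X] :
    range (oF hp hpf X) = (range (cF (X := X) hp hpf))ᶜ := by
  ext y
  constructor
  · rintro ⟨x, rfl⟩ ⟨z, hz⟩
    obtain ⟨-, c, hc0, hc1⟩ := (FO hp hpf X).val_mem x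
    have h1 := congrArg (fun y => ((FB hp hpf X).val y).2.co c) hz
    change (vtC ((FX p hp X).val z).2).co c = ((FO hp hpf X).val x).2.co c at h1
    rw [← h1, vtC_co] at hc0 hc1
    split_ifs at hc0 hc1 <;> simp_all
  · intro hy
    by_contra h
    apply hy
    have h1 : ∀ c, ((FB hp hpf X).val y).2.co c ≠ 0 → ((FB hp hpf X).val y).2.co c = 1 := by
      intro c h0
      by_contra h1
      exact h ⟨(FO hp hpf X).pt ((FB hp hpf X).val y) ⟨(FB hp hpf X).val_mem y, c, h0, h1⟩, rfl⟩
    classical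
    obtain ⟨S, hS⟩ : ∃ S : Pow C, S = fun c => decide (((FB hp hpf X).val y).2.co c ≠ 0) :=
      ⟨_, rfl⟩
    have hSv : ∀ c, S c = true ↔ ((FB hp hpf X).val y).2.co c ≠ 0 := by
      intro c
      rw [hS]
      exact decide_eq_true_iff
    have h2 : vtC S = ((FB hp hpf X).val y).2 := by
      refine Cf.ext' fun c => ?_
      rw [vtC_co]
      by_cases h3 : ((FB hp hpf X).val y).2.co c = 0
      · rw [if_neg (by rw [hSv]; exact fun h => h h3), h3]
      · rw [if_pos ((hSv c).2 h3), h1 c h3]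
    have h3 : (((FB hp hpf X).val y).1, S) ∈ (FX p hp X).carrier := by
      refine mem_FX_of_vtC hp hpf ?_
      rw [h2]
      exact (FB hp hpf X).val_mem y
    refine ⟨(FX p hp X).pt _ h3, ?_⟩
    apply (FB hp hpf X).val_injective
    exact Prod.ext rfl h2

end Vertex

section Top

variable {Γ C I X : Type} [Group Γ] [MulAction Γ C] [MulAction Γ I] {p : C → I}
  (hp : ∀ (g : Γ) c, p (g • c) = g • p c) (hpf : ∀ i, {c | p c = i}.Finite)
  [MulAction Γ X] [TopologicalSpace X] [T2Space X]

omit [T2Space X] in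
lemma continuous_cF : Continuous (cF (X := X) hp hpf) :=
  Continuous.subtype_mk ((continuous_fst.comp (FX p hp X).continuous_val).prodMk
    (continuous_vtC.comp (continuous_snd.comp (FX p hp X).continuous_val))) _

omit [TopologicalSpace X] [T2Space X] in
lemma mem_FX_iff {x : X × Pow C} : x ∈ (FX p hp X).carrier ↔
    (x.1, vtC x.2) ∈ (FB hp hpf X).carrier :=
  ⟨vtC_mem hp hpf, mem_FX_of_vtC hp hpf⟩

omit [T2Space X] in
include hpf in
lemma isClosed_FX : IsClosed (FX p hp X).carrier := by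
  have h1 : (FX p hp X).carrier =
      (fun x : X × Pow C => (x.1, vtC x.2)) ⁻¹' (FB hp hpf X).carrier := by
    ext x
    exact mem_FX_iff hp hpf
  rw [h1]
  exact (isClosed_FB hp hpf X).preimage
    (continuous_fst.prodMk (continuous_vtC.comp continuous_snd))

lemma isProperMap_cF : IsProperMap (cF (X := X) hp hpf) := by
  refine isProperMap_of_comp_of_t2 (continuous_cF hp hpf)
    (isProperMap_fst_Cf (FB hp hpf X) (isClosed_FB hp hpf X)).continuous ?_
  exact isProperMap_prP_aux (FX p hp X) (isClosed_FX hp hpf)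

lemma isClosedEmbedding_cF : IsClosedEmbedding (cF (X := X) hp hpf) :=
  IsClosedEmbedding.of_continuous_injective_isClosedMap (continuous_cF hp hpf)
    (injective_cF hp hpf X) (isProperMap_cF hp hpf).isClosedMap

lemma isOpenEmbedding_oF : IsOpenEmbedding (oF hp hpf X) := by
  refine ⟨InvSet.BA2_isEmbedding (FO_subset hp hpf X), ?_⟩
  rw [range_oF]
  exact (isClosedEmbedding_cF hp hpf).isClosed_range.isOpen_compl

end Top

section StepA

variable {Γ C I X W : Type} [Group Γ] [MulAction Γ C] [MulAction Γ I] {p : C → I}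
  (hp : ∀ (g : Γ) c, p (g • c) = g • p c) (hps : Function.Surjective p)
  (hpf : ∀ i, {c | p c = i}.Finite)
  [MulAction Γ X] [TopologicalSpace X] [ContinuousConstSMul Γ X]
  [T2Space X] [LocallyCompactSpace X] [TopologicalSpace W] [T2Space W] [LocallyCompactSpace W]
  [MulAction Γ W] [ContinuousConstSMul Γ W]

include hps in
theorem isoU_FB : IsoU Γ (Prod.map (fun y : (FB hp hpf X).Pt => ((FB hp hpf X).val y).1)
    (id : W → W)) :=
  isoU_convex (FB hp hpf X) (isClosed_FB hp hpf X) (fun _ => unif hpf) continuous_const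
    (fun g _ => (unif_smul hp hpf g).symm) (unif_mem hp hps hpf) (mix_mem hp hpf)

include hps in
theorem isoU_cF (h : IsoU Γ (prP (FX p hp X) W)) :
    IsoU Γ (Prod.map (cF (X := X) hp hpf) (id : W → W)) := by
  have h1 := isProperMap_fst_Cf (FB hp hpf X) (isClosed_FB hp hpf X)
  have h2 : IsProperMap (Prod.map (fun y : (FB hp hpf X).Pt => ((FB hp hpf X).val y).1)
    (id : W → W)) := h1.prodMap isProperMap_id
  refine IsoU.of_comp_left h2 (fun g x => rfl) ((isProperMap_cF hp hpf).prodMap isProperMap_id)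
    (fun g x => rfl) ?_ (isoU_FB hp hps hpf)
  exact h

include hps in
theorem isoU_prP_of_cF (h : IsoU Γ (Prod.map (cF (X := X) hp hpf) (id : W → W))) :
    IsoU Γ (prP (FX p hp X) W) := by
  have h1 := isProperMap_fst_Cf (FB hp hpf X) (isClosed_FB hp hpf X)
  have h2 : IsProperMap (Prod.map (fun y : (FB hp hpf X).Pt => ((FB hp hpf X).val y).1)
    (id : W → W)) := h1.prodMap isProperMap_id
  have h3 := IsoU.comp h2 (fun g x => rfl) ((isProperMap_cF hp hpf).prodMap isProperMap_id)
    (fun g x => rfl) (isoU_FB hp hps hpf) h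
  exact h3

include hps in
/-- STEP A. -/
theorem FO_le_of_isoU (hA : PropA Γ) (h0 : IsoU Γ (prP (FX p hp X) W))
    (h1 : IsoU Γ (prP (FX p hp X) (W × OO))) :
    GL1 (cp Γ ((FO hp hpf X).Pt × W)) ≤ E1 (cp Γ ((FO hp hpf X).Pt × W)) := by
  have : LocallyCompactSpace (FB hp hpf X).Pt :=
    InvSet.locallyCompactSpace _ (isClosed_FB hp hpf X).isLocallyClosed
  have hco : range (Prod.map (oF hp hpf X) (id : W → W)) =
      (range (Prod.map (cF (X := X) hp hpf) (id : W → W)))ᶜ := by
    rw [Set.range_prodMap, Set.range_prodMap, range_oF]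
    ext ⟨x, t⟩
    simp
  refine GL1_le_E1_of_surj (P := (FB hp hpf X).Pt × W)
    (C := (FX p hp X).Pt × W) hA ((isClosedEmbedding_cF hp hpf).prodMap IsClosedEmbedding.id)
    (fun g x => rfl) ((isOpenEmbedding_oF hp hpf).prodMap IsOpenEmbedding.id) (fun g x => rfl) hco
    (isoU_cF hp hps hpf h0).1 ?_
  exact ((isoU_assoc (V := W) (isProperMap_cF hp hpf) (cF_smul hp hpf)).2
    (isoU_cF hp hps hpf h1)).2

end StepA

section Her

variable {Γ C I X : Type} [Group Γ] [MulAction Γ C] [MulAction Γ I] {p : C → I}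
  (hp : ∀ (g : Γ) c, p (g • c) = g • p c) (hpf : ∀ i, {c | p c = i}.Finite)
  [MulAction Γ X]

/-- The differences of two points of the product of the finite sets. -/
def HF (X : Type) [MulAction Γ X] : InvSet Γ ((FX p hp X).Pt × Pow C) where
  carrier := {x | (∀ c, x.2 c = true → ((FX p hp X).val x.1).2 c = false) ∧
    ∀ c c', p c = p c' → x.2 c = true → x.2 c' = true → c = c'}
  inv g x hx := by
    refine ⟨fun c hc => hx.1 (g⁻¹ • c) hc, fun c c' h hc hc' => ?_⟩
    have h1 := hx.2 (g⁻¹ • c) (g⁻¹ • c') (by rw [hp, hp, h]) hc hc'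
    exact smul_left_cancel _ h1

lemma isClosed_HF [TopologicalSpace X] : IsClosed (HF hp X).carrier := by
  have hv : Continuous fun x : (FX p hp X).Pt × Pow C => ((FX p hp X).val x.1).2 :=
    continuous_snd.comp ((FX p hp X).continuous_val.comp continuous_fst)
  have h1 : (HF hp X).carrier =
      (⋂ c : C, ({x : (FX p hp X).Pt × Pow C | x.2 c = false} ∪
        {x | ((FX p hp X).val x.1).2 c = false})) ∩
      ⋂ c : C, ⋂ c' : C, ⋂ _ : p c = p c' ∧ c ≠ c', ({x : (FX p hp X).Pt × Pow C | x.2 c = false} ∪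
        {x | x.2 c' = false}) := by
    ext x
    simp only [mem_iInter, mem_inter_iff, mem_union, mem_ofPred_eq]
    refine and_congr (forall_congr' fun c => ?_) (forall_congr' fun c => forall_congr' fun c' => ?_)
    · rcases h : x.2 c with _ | _ <;> simp
    · constructor
      · rintro h ⟨h1, h2⟩
        by_contra h3
        rw [not_or, Bool.not_eq_false, Bool.not_eq_false] at h3
        exact h2 (h h1 h3.1 h3.2)
      · intro h h1 h2 h3
        by_contra h4
        rcases h ⟨h1, h4⟩ with h5 | h5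
        · rw [h5] at h2
          exact Bool.false_ne_true h2
        · rw [h5] at h3
          exact Bool.false_ne_true h3
  rw [h1]
  refine IsClosed.inter (isClosed_iInter fun c => IsClosed.union ?_ ?_)
    (isClosed_iInter fun c => isClosed_iInter fun c' => isClosed_iInter fun _ =>
      IsClosed.union ?_ ?_)
  · exact (Pow.isClosed_eval c false).preimage continuous_snd
  · exact (Pow.isClosed_eval c false).preimage hv
  · exact (Pow.isClosed_eval c false).preimage continuous_snd
  · exact (Pow.isClosed_eval c' false).preimage continuous_snd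

/-- The difference `S' ∖ S`. -/
def dif {C : Type} (S S' : Pow C) : Pow C := fun c => S' c && !(S c)

open Classical in
/-- The point `S'` with `S' ∖ S = D`. -/
def rec' (p : C → I) (S D : Pow C) : Pow C := fun c =>
  D c || (S c && decide (∀ c', p c' = p c → D c' = false))

lemma dif_apply {C : Type} (S S' : Pow C) (c : C) : dif S S' c = true ↔ S' c = true ∧ S c = false := by
  change (S' c && !(S c)) = true ↔ _
  simp

lemma rec'_apply {C I : Type} (p : C → I) (S D : Pow C) (c : C) : rec' p S D c = true ↔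
    D c = true ∨ (S c = true ∧ ∀ c', p c' = p c → D c' = false) := by
  classical
  unfold rec'
  simp

lemma dif_mem {y : (FX p hp X).Pt} {S' : Pow C} (h : (y, S') ∈ (FX p hp (FX p hp X).Pt).carrier) :
    (y, dif ((FX p hp X).val y).2 S') ∈ (HF hp X).carrier := by
  constructor
  · intro c hc
    exact ((dif_apply _ _ _).1 hc).2
  · intro c c' hcc hc hc'
    have h1 : S' c = true := ((dif_apply _ _ _).1 hc).1
    have h2 : S' c' = true := ((dif_apply _ _ _).1 hc').1
    obtain ⟨c₀, -, h3⟩ := h (p c)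
    rw [h3 c ⟨rfl, h1⟩, h3 c' ⟨hcc.symm, h2⟩]

lemma rec'_mem {y : (FX p hp X).Pt} {D : Pow C} (h : (y, D) ∈ (HF hp X).carrier) :
    (y, rec' p ((FX p hp X).val y).2 D) ∈ (FX p hp (FX p hp X).Pt).carrier := by
  intro i
  change ∃! c, p c = i ∧ rec' p ((FX p hp X).val y).2 D c = true
  by_cases hD : ∃ c, p c = i ∧ D c = true
  · obtain ⟨c, hc, hcD⟩ := hD
    refine ⟨c, ⟨hc, (rec'_apply _ _ _ _).2 (Or.inl hcD)⟩, ?_⟩
    rintro c' ⟨h1, h2⟩
    rcases (rec'_apply _ _ _ _).1 h2 with h3 | h3
    · exact h.2 c' c (h1.trans hc.symm) h3 hcD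
    · have h4 := h3.2 c (hc.trans h1.symm)
      rw [h4] at hcD
      exact absurd hcD Bool.false_ne_true
  · obtain ⟨c, ⟨hc, hcS⟩, hu⟩ := (FX p hp X).val_mem y i
    have hD' : ∀ c', p c' = i → D c' = false := by
      intro c' hc'
      by_contra h1
      exact hD ⟨c', hc', by simpa using h1⟩
    refine ⟨c, ⟨hc, (rec'_apply _ _ _ _).2 (Or.inr ⟨hcS, fun c' h1 => hD' c' (h1.trans hc)⟩)⟩, ?_⟩
    rintro c' ⟨h1, h2⟩
    rcases (rec'_apply _ _ _ _).1 h2 with h3 | h3
    · rw [hD' c' h1] at h3
      exact absurd h3 Bool.false_ne_true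
    · exact hu c' ⟨h1, h3.1⟩

lemma rec'_dif {y : (FX p hp X).Pt} {S' : Pow C}
    (h : (y, S') ∈ (FX p hp (FX p hp X).Pt).carrier) :
    rec' p ((FX p hp X).val y).2 (dif ((FX p hp X).val y).2 S') = S' := by
  funext c
  have key : rec' p ((FX p hp X).val y).2 (dif ((FX p hp X).val y).2 S') c = true ↔ S' c = true := by
    rw [rec'_apply, dif_apply]
    constructor
    · rintro (h1 | ⟨h1, h2⟩)
      · exact h1.1
      · obtain ⟨c₀, ⟨h3, h4⟩, -⟩ := h (p c)
        obtain ⟨c₁, -, h6⟩ := (FX p hp X).val_mem y (p c)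
        have h7 := h2 c₀ h3
        have h8 : ((FX p hp X).val y).2 c₀ = true := by
          by_contra h9
          have h10 : dif ((FX p hp X).val y).2 S' c₀ = true :=
            (dif_apply _ _ _).2 ⟨h4, by simpa using h9⟩
          rw [h7] at h10
          exact Bool.false_ne_true h10
        have h9 : c₀ = c := by rw [h6 c₀ ⟨h3, h8⟩, h6 c ⟨rfl, h1⟩]
        rw [← h9]
        exact h4
    · intro h1
      by_cases h2 : ((FX p hp X).val y).2 c = true
      · refine Or.inr ⟨h2, fun c' hc' => ?_⟩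
        by_contra h3
        have h4 := (dif_apply _ _ _).1 (by simpa using h3)
        obtain ⟨c₀, -, h5⟩ := h (p c)
        have h6 : c' = c := by rw [h5 c' ⟨hc', h4.1⟩, h5 c ⟨rfl, h1⟩]
        rw [h6, h2] at h4
        exact Bool.false_ne_true h4.2.symm
      · exact Or.inl ⟨h1, by simpa using h2⟩
  rcases h1 : rec' p ((FX p hp X).val y).2 (dif ((FX p hp X).val y).2 S') c with _ | _ <;>
    rcases h2 : S' c with _ | _ <;> simp_all

lemma dif_rec' {y : (FX p hp X).Pt} {D : Pow C} (h : (y, D) ∈ (HF hp X).carrier) :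
    dif ((FX p hp X).val y).2 (rec' p ((FX p hp X).val y).2 D) = D := by
  funext c
  have key : dif ((FX p hp X).val y).2 (rec' p ((FX p hp X).val y).2 D) c = true ↔ D c = true := by
    rw [dif_apply, rec'_apply]
    constructor
    · rintro ⟨h1 | h1, h2⟩
      · exact h1
      · rw [h1.1] at h2
        exact absurd h2.symm Bool.false_ne_true
    · intro h1
      exact ⟨Or.inl h1, h.1 c h1⟩
  rcases h1 : dif ((FX p hp X).val y).2 (rec' p ((FX p hp X).val y).2 D) c with _ | _ <;>
    rcases h2 : D c with _ | _ <;> simp_all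

lemma continuous_dif {C : Type} {A : Type} [TopologicalSpace A] {S S' : A → Pow C}
    (hS : Continuous S) (hS' : Continuous S') : Continuous fun a => dif (S a) (S' a) := by
  refine continuous_pi fun c => ?_
  have h2 : Continuous fun a => (S a c, S' a c) :=
    ((Pow.continuous_eval c).comp hS).prodMk ((Pow.continuous_eval c).comp hS')
  exact (continuous_of_discreteTopology (f := fun b : Bool × Bool => b.2 && !b.1)).comp h2

include hpf in
omit [Group Γ] [MulAction Γ C] [MulAction Γ I] in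
lemma continuous_rec' {A : Type} [TopologicalSpace A] {S D : A → Pow C}
    (hS : Continuous S) (hD : Continuous D) : Continuous fun a => rec' p (S a) (D a) := by
  classical
  refine continuous_pi fun c => ?_
  have h1 : IsClopen {a | D a c = true} :=
    (isClopen_discrete {true}).preimage ((Pow.continuous_eval c).comp hD)
  have h2 : IsClopen {a | S a c = true} :=
    (isClopen_discrete {true}).preimage ((Pow.continuous_eval c).comp hS)
  have h3 : IsClopen {a | ∀ c', p c' = p c → D a c' = false} := by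
    have h4 : {a | ∀ c', p c' = p c → D a c' = false} =
        ⋂ c' ∈ fib hpf (p c), {a | D a c' = false} := by
      ext a
      simp only [mem_ofPred_eq, mem_iInter, mem_fib]
    rw [h4]
    exact isClopen_biInter_finset fun c' _ =>
      (isClopen_discrete {false}).preimage ((Pow.continuous_eval c').comp hD)
  have h5 : IsClopen {a | rec' p (S a) (D a) c = true} := by
    have h6 : {a | rec' p (S a) (D a) c = true} = {a | D a c = true} ∪
        ({a | S a c = true} ∩ {a | ∀ c', p c' = p c → D a c' = false}) := by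
      ext a
      exact rec'_apply p (S a) (D a) c
    rw [h6]
    exact h1.union (h2.inter h3)
  refine continuous_discrete_rng.2 fun b => ?_
  rcases b with _ | _
  · have h7 : (fun a => rec' p (S a) (D a) c) ⁻¹' {false} = {a | rec' p (S a) (D a) c = true}ᶜ := by
      ext a
      simp
    rw [h7]
    exact h5.compl.2
  · exact h5.2

/-- The homeomorphism. -/
def eHF [TopologicalSpace X] : (FX p hp (FX p hp X).Pt).Pt ≃ₜ (HF hp X).Pt where
  toFun x := (HF hp X).pt (((FX p hp (FX p hp X).Pt).val x).1,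
    dif ((FX p hp X).val ((FX p hp (FX p hp X).Pt).val x).1).2 ((FX p hp (FX p hp X).Pt).val x).2)
    (dif_mem hp ((FX p hp (FX p hp X).Pt).val_mem x))
  invFun x := (FX p hp (FX p hp X).Pt).pt (((HF hp X).val x).1,
    rec' p ((FX p hp X).val ((HF hp X).val x).1).2 ((HF hp X).val x).2)
    (rec'_mem hp ((HF hp X).val_mem x))
  left_inv x := by
    apply (FX p hp (FX p hp X).Pt).val_injective
    exact Prod.ext rfl (rec'_dif hp ((FX p hp (FX p hp X).Pt).val_mem x))
  right_inv x := by
    apply (HF hp X).val_injective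
    exact Prod.ext rfl (dif_rec' hp ((HF hp X).val_mem x))
  continuous_toFun := by
    have h1 := (FX p hp (FX p hp X).Pt).continuous_val
    exact Continuous.subtype_mk ((continuous_fst.comp h1).prodMk (continuous_dif
      (continuous_snd.comp ((FX p hp X).continuous_val.comp (continuous_fst.comp h1)))
      (continuous_snd.comp h1))) _
  continuous_invFun := by
    have h1 := (HF hp X).continuous_val
    exact Continuous.subtype_mk ((continuous_fst.comp h1).prodMk (continuous_rec' hpf
      (continuous_snd.comp ((FX p hp X).continuous_val.comp (continuous_fst.comp h1)))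
      (continuous_snd.comp h1))) _

lemma eHF_smul [TopologicalSpace X] (g : Γ) (x : (FX p hp (FX p hp X).Pt).Pt) :
    eHF hp hpf (g • x) = g • eHF hp hpf x := rfl

end Her

section Main

variable {Γ E : Type} [Group Γ] [Countable Γ]
  [AddCommGroup E] [Module ℝ E] [TopologicalSpace E] [T2Space E] [ContinuousAdd E]
  [ContinuousSMul ℝ E] [DistribMulAction Γ E] [SMulCommClass Γ ℝ E] [ContinuousConstSMul Γ E]
  [LocallyConvexSpace ℝ E]

variable {C I X V : Type} [MulAction Γ C] [Countable C] [MulAction Γ I] [Countable I] {p : C → I}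
  (hp : ∀ (g : Γ) c, p (g • c) = g • p c) (hps : Function.Surjective p)
  (hpf : ∀ i, {c | p c = i}.Finite)
  [TopologicalSpace X] [T2Space X] [LocallyCompactSpace X] [MulAction Γ X]
  [ContinuousConstSMul Γ X] [TopologicalSpace V] [T2Space V] [LocallyCompactSpace V]
  [MulAction Γ V] [ContinuousConstSMul Γ V]

include hpf in
omit [Countable I] in
/-- STEP B1. -/
theorem isoU_FX_FX (Q : ConvexSpace Γ E) (hA : PropA Γ) (hC : Sites Q C) :
    IsoU Γ (prP (FX p hp (FX p hp X).Pt) (Cone Q × V)) := by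
  have : LocallyCompactSpace (FX p hp X).Pt :=
    InvSet.locallyCompactSpace _ (isClosed_FX hp hpf).isLocallyClosed
  have h1 : IsoU Γ (prP (HF hp X) (Cone Q × V)) := by
    refine isoU_hered Q hA hC (HF hp X) (isClosed_HF hp) ?_ ?_
    · intro b S S' h h'
      exact ⟨fun c hc => h.1 c (h' c hc), fun c c' hcc hc hc' => h.2 c c' hcc (h' c hc) (h' c' hc')⟩
    · intro b
      exact ⟨fun c hc => absurd hc Bool.false_ne_true, fun c c' _ hc => absurd hc Bool.false_ne_true⟩
  refine isoU_conj ((eHF hp hpf).prodCongr (Homeomorph.refl (Cone Q × V)))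
    (Homeomorph.refl ((FX p hp X).Pt × Cone Q × V)) (fun g x => ?_) (fun g x => rfl)
    (fun x => rfl) (isProperMap_prP _ (isClosed_HF hp)) (fun g x => rfl)
    (isProperMap_prP _ (isClosed_FX hp hpf)) (fun g x => rfl) h1
  rfl

include hps in
omit [Countable I] in
/-- STEP B2. -/
theorem FO_FX_le (Q : ConvexSpace Γ E) (hA : PropA Γ) (hC : Sites Q C) :
    GL1 (cp Γ ((FO hp hpf (FX p hp X).Pt).Pt × Cone Q × V)) ≤
      E1 (cp Γ ((FO hp hpf (FX p hp X).Pt).Pt × Cone Q × V)) := by
  have : LocallyCompactSpace (Cone Q) := cone_locallyCompact Q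
  have : LocallyCompactSpace (FX p hp X).Pt :=
    InvSet.locallyCompactSpace _ (isClosed_FX hp hpf).isLocallyClosed
  refine FO_le_of_isoU hp hps hpf hA (isoU_FX_FX hp hpf Q hA hC) ?_
  exact isoU_map_congr (isProperMap_prP_aux (FX p hp (FX p hp X).Pt) (isClosed_FX hp hpf))
    (fun g x => rfl) (Homeomorph.prodAssoc (Cone Q) V OO) (fun g x => rfl)
    (isoU_FX_FX hp hpf Q hA hC)

/-- Swapping the two factors. -/
def eSwapF (X : Type) [TopologicalSpace X] [MulAction Γ X] :
    (FO hp hpf (FX p hp X).Pt).Pt ≃ₜ (FX p hp (FO hp hpf X).Pt).Pt where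
  toFun x := (FX p hp (FO hp hpf X).Pt).pt ((FO hp hpf X).pt
      (((FX p hp X).val ((FO hp hpf (FX p hp X).Pt).val x).1).1,
        ((FO hp hpf (FX p hp X).Pt).val x).2)
      ((FO hp hpf (FX p hp X).Pt).val_mem x),
      ((FX p hp X).val ((FO hp hpf (FX p hp X).Pt).val x).1).2)
    ((FX p hp X).val_mem ((FO hp hpf (FX p hp X).Pt).val x).1)
  invFun x := (FO hp hpf (FX p hp X).Pt).pt ((FX p hp X).pt
      (((FO hp hpf X).val ((FX p hp (FO hp hpf X).Pt).val x).1).1,
        ((FX p hp (FO hp hpf X).Pt).val x).2)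
      ((FX p hp (FO hp hpf X).Pt).val_mem x),
      ((FO hp hpf X).val ((FX p hp (FO hp hpf X).Pt).val x).1).2)
    ((FO hp hpf X).val_mem ((FX p hp (FO hp hpf X).Pt).val x).1)
  left_inv x := rfl
  right_inv x := rfl
  continuous_toFun := by
    have h1 := (FO hp hpf (FX p hp X).Pt).continuous_val
    have h2 := (FX p hp X).continuous_val.comp (continuous_fst.comp h1)
    exact Continuous.subtype_mk ((Continuous.subtype_mk ((continuous_fst.comp h2).prodMk
      (continuous_snd.comp h1)) _).prodMk (continuous_snd.comp h2)) _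
  continuous_invFun := by
    have h1 := (FX p hp (FO hp hpf X).Pt).continuous_val
    have h2 := (FO hp hpf X).continuous_val.comp (continuous_fst.comp h1)
    exact Continuous.subtype_mk ((Continuous.subtype_mk ((continuous_fst.comp h2).prodMk
      (continuous_snd.comp h1)) _).prodMk (continuous_snd.comp h2)) _

include hps in
/-- STEP C. -/
theorem FO_le (Q : ConvexSpace Γ E) (hA : PropA Γ) (hC : Sites Q C) (q : I → Q.Pt)
    (hq : ∀ (g : Γ) i, q (g • i) = g • q i) :
    GL1 (cp Γ ((FO hp hpf X).Pt × Cone Q × V)) ≤ E1 (cp Γ ((FO hp hpf X).Pt × Cone Q × V)) := by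
  have : LocallyCompactSpace (Cone Q) := cone_locallyCompact Q
  have : LocallyCompactSpace (FB hp hpf X).Pt :=
    InvSet.locallyCompactSpace _ (isClosed_FB hp hpf X).isLocallyClosed
  have : LocallyCompactSpace (FO hp hpf X).Pt := (isOpenEmbedding_oF hp hpf).locallyCompactSpace
  intro u hu
  refine free_inj p hp hps hpf Q hA q hq hu ?_
  have h1 : GL1 (cp Γ ((FX p hp (FO hp hpf X).Pt).Pt × Cone Q × V)) ≤
      E1 (cp Γ ((FX p hp (FO hp hpf X).Pt).Pt × Cone Q × V)) :=
    GL1_le_E1_of_homeomorph ((eSwapF hp hpf X).prodCongr (Homeomorph.refl (Cone Q × V)))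
      (fun g x => rfl) (FO_FX_le hp hps hpf Q hA hC)
  exact h1 (BA1_mem_GL1 (isProperMap_prP _ (isClosed_FX hp hpf)) (fun g x => rfl) hu)

include hps hpf in
/-- STEP D: BIJECTIVITY. -/
theorem isoU_FX (Q : ConvexSpace Γ E) (hA : PropA Γ) (hC : Sites Q C) (q : I → Q.Pt)
    (hq : ∀ (g : Γ) i, q (g • i) = g • q i) :
    IsoU Γ (prP (FX p hp X) ((Cone Q × V) × OO)) := by
  have : LocallyCompactSpace (Cone Q) := cone_locallyCompact Q
  have : LocallyCompactSpace (FB hp hpf X).Pt :=
    InvSet.locallyCompactSpace _ (isClosed_FB hp hpf X).isLocallyClosed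
  refine isoU_prP_of_cF hp hps hpf ?_
  rw [← isoU_assoc (isProperMap_cF hp hpf) (cF_smul hp hpf)]
  have hpr : IsProperMap (Prod.map (Prod.map (cF (X := X) hp hpf) (id : Cone Q × V → Cone Q × V))
      (id : OO → OO)) := ((isProperMap_cF hp hpf).prodMap isProperMap_id).prodMap isProperMap_id
  rw [isoU_iff hpr (fun _ _ => rfl)]
  have hco : range (Prod.map (oF hp hpf X) (id : Cone Q × V → Cone Q × V)) =
      (range (Prod.map (cF (X := X) hp hpf) (id : Cone Q × V → Cone Q × V)))ᶜ := by
    rw [Set.range_prodMap, Set.range_prodMap, range_oF]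
    ext ⟨x, t⟩
    simp
  refine K1_pull_bijective_step hA ((isClosedEmbedding_cF hp hpf).prodMap IsClosedEmbedding.id)
    (fun _ _ => rfl) ((isOpenEmbedding_oF hp hpf).prodMap IsOpenEmbedding.id) (fun _ _ => rfl) hco
    (FO_le hp hps hpf Q hA hC q hq) ?_ hpr (fun _ _ => rfl)
  exact GL1_le_E1_of_homeomorph
    ((Homeomorph.refl (FO hp hpf X).Pt).prodCongr (Homeomorph.prodAssoc (Cone Q) V OO).symm |>.trans
      (Homeomorph.prodAssoc (FO hp hpf X).Pt (Cone Q × V) OO).symm) (fun _ _ => rfl)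
    (FO_le (V := V × OO) hp hps hpf Q hA hC q hq)

end Main

end Pool.Agent.Lib.MP_aa9b81_an.Cut
end

end


section
/-!
# Total cutting theorem: free totally disconnected spaces
-/

noncomputable section

namespace Pool.Agent.Lib.MP_aa9b81_an.Cut

open scoped ENNReal Topology ZeroAtInfty
open Filter Topology Set MulAction

section Space

variable (Γ : Type) [Group Γ] (X : Type) [TopologicalSpace X] [MulAction Γ X]

/-- The product of `X` with the free totally disconnected space. -/
def XO : InvSet Γ (X × Pow (C₀' Γ)) := FX (p₀ : C₀' Γ → I₀ Γ) p₀_smul X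

variable {Γ X}

lemma isClosed_XO : IsClosed (XO Γ X).carrier := isClosed_FX p₀_smul finite_fibre

/-- The projection to `X`. -/
def prO (z : (XO Γ X).Pt) : X := ((XO Γ X).val z).1

lemma isProperMap_prO : IsProperMap (prO : (XO Γ X).Pt → X) :=
  isProperMap_prP_aux (XO Γ X) isClosed_XO

omit [TopologicalSpace X] in
lemma prO_smul (g : Γ) (z : (XO Γ X).Pt) : prO (g • z) = g • prO z := rfl

omit [TopologicalSpace X] in
lemma surjective_prO : Function.Surjective (prO : (XO Γ X).Pt → X) := by
  classical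
  intro x
  choose c hc using surjective_p₀ (Γ := Γ)
  refine ⟨(XO Γ X).pt (x, fun a => decide (a = c (p₀ a))) ?_, rfl⟩
  intro i
  refine ⟨c i, ⟨hc i, ?_⟩, ?_⟩
  · change decide (c i = c (p₀ (c i))) = true
    rw [hc]
    simp
  · rintro a ⟨h1, h2⟩
    have h3 : a = c (p₀ a) := by
      have h4 : decide (a = c (p₀ a)) = true := h2
      simpa using h4
    rw [h3, h1]

omit [TopologicalSpace X] in
lemma stabilizer_XO (z : (XO Γ X).Pt) : stabilizer Γ z = ⊥ := by
  rw [eq_bot_iff]
  intro g hg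
  exact Subgroup.mem_bot.2 (free_FX z g (mem_stabilizer_iff.1 hg))

lemma totallyDisconnected_XO [TotallyDisconnectedSpace X] :
    TotallyDisconnectedSpace (XO Γ X).Pt := by
  have h : TotallyDisconnectedSpace (XO Γ X).carrier := inferInstance
  exact h

lemma metrizable_XO [Countable Γ] [TopologicalSpace.MetrizableSpace X] :
    TopologicalSpace.MetrizableSpace (XO Γ X).Pt := by
  have h := metrizable_pow (C₀' Γ)
  exact (XO Γ X).isEmbedding_val.metrizableSpace

lemma compact_XO [CompactSpace X] : CompactSpace (XO Γ X).Pt :=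
  ((XO Γ X).isClosedEmbedding_val isClosed_XO).compactSpace

lemma sigmaCompact_XO [SigmaCompactSpace X] : SigmaCompactSpace (XO Γ X).Pt :=
  ((XO Γ X).isClosedEmbedding_val isClosed_XO).sigmaCompactSpace

end Space

/-- The free space does not change the groups. -/
theorem isoU_prO (Γ : Type) [Group Γ] [Countable Γ] {X : Type} [TopologicalSpace X] [T2Space X]
    [LocallyCompactSpace X] [MulAction Γ X] [ContinuousConstSMul Γ X]
    (E : Type) [AddCommGroup E] [Module ℝ E] [TopologicalSpace E] [T2Space E]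
    [ContinuousAdd E] [ContinuousSMul ℝ E] [DistribMulAction Γ E] [SMulCommClass Γ ℝ E]
    [ContinuousConstSMul Γ E] [LocallyConvexSpace ℝ E] (Q : ConvexSpace Γ E) (hA : PropA Γ)
    (j : ℕ) :
    IsoU Γ (Prod.map (prO : (XO Γ X).Pt → X)
      (id : Cone Q × Cube (j + 1) → Cone Q × Cube (j + 1))) := by
  obtain ⟨q, hq⟩ := exists_q₀ Q
  have hC : Sites Q (C₀' Γ) := sites_of_q Q (fun c => q (p₀ c)) (fun g c => by
    rw [p₀_smul, hq])
  rw [← isoU_cube isProperMap_prO prO_smul j]
  exact isoU_FX (V := Cube j) p₀_smul surjective_p₀ finite_fibre Q hA hC q hq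

theorem inj_prO (Γ : Type) [Group Γ] [Countable Γ] {X : Type} [TopologicalSpace X] [T2Space X]
    [LocallyCompactSpace X] [MulAction Γ X] [ContinuousConstSMul Γ X]
    (E : Type) [AddCommGroup E] [Module ℝ E] [TopologicalSpace E] [T2Space E]
    [ContinuousAdd E] [ContinuousSMul ℝ E] [DistribMulAction Γ E] [SMulCommClass Γ ℝ E]
    [ContinuousConstSMul Γ E] [LocallyConvexSpace ℝ E] (Q : ConvexSpace Γ E) (hA : PropA Γ)
    (j : ℕ)
    (h : GL1 (cp Γ ((XO Γ X).Pt × Cone Q × Cube j)) ≤ E1 (cp Γ ((XO Γ X).Pt × Cone Q × Cube j))) :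
    GL1 (cp Γ (X × Cone Q × Cube j)) ≤ E1 (cp Γ (X × Cone Q × Cube j)) := by
  obtain ⟨q, hq⟩ := exists_q₀ Q
  intro u hu
  refine free_inj (V := Cube j) p₀ p₀_smul surjective_p₀ finite_fibre Q hA q hq hu (h ?_)
  exact BA1_mem_GL1 (isProperMap_prP (V := Cone Q × Cube j) (XO Γ X) isClosed_XO)
    (fun g x => rfl) hu

/-- TOTAL CUTTING, FREE VERSION. -/
theorem total_cutting_free (Γ : Type) [Group Γ] [Countable Γ] (X : Type)
    [TopologicalSpace X] [TopologicalSpace.MetrizableSpace X] [LocallyCompactSpace X]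
    [SigmaCompactSpace X] [MulAction Γ X] [ContinuousConstSMul Γ X] :
    ∃ (Z : Type) (_ : TopologicalSpace Z) (_ : MulAction Γ Z) (p : Z → X),
      IsProperMap p ∧ (∀ (g : Γ) z, p (g • z) = g • p z) ∧ Function.Surjective p ∧
      ContinuousConstSMul Γ Z ∧ TopologicalSpace.MetrizableSpace Z ∧ LocallyCompactSpace Z ∧
      SigmaCompactSpace Z ∧ TotallyDisconnectedSpace Z ∧ (∀ z : Z, stabilizer Γ z = ⊥) ∧
      (∀ d, DimLE X d → (∀ x : X, MulAction.stabilizer Γ x = ⊥) →
        ∀ x, (p ⁻¹' {x}).encard ≤ 2 ^ d) ∧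
      ∀ (E : Type) [AddCommGroup E] [Module ℝ E] [TopologicalSpace E] [T2Space E]
        [ContinuousAdd E] [ContinuousSMul ℝ E] [DistribMulAction Γ E] [SMulCommClass Γ ℝ E]
        [ContinuousConstSMul Γ E] [LocallyConvexSpace ℝ E] (Q : ConvexSpace Γ E), PropA Γ →
        ∀ j, IsoU Γ (Prod.map p (id : Cone Q × Cube (j + 1) → Cone Q × Cube (j + 1))) := by
  obtain ⟨Z, tZ, aZ, p, hp, he, hs, h1, h2, h3, h4, h5, h6, h7⟩ := total_cutting Γ X
  by_cases hX : ∀ x : X, stabilizer Γ x = ⊥
  · refine ⟨Z, tZ, aZ, p, hp, he, hs, h1, h2, h3, h4, h5, fun z => ?_, h6,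
      fun E _ _ _ _ _ _ _ _ _ _ Q hA j => h7 E Q hA j⟩
    rw [eq_bot_iff, ← hX (p z)]
    intro g hg
    rw [mem_stabilizer_iff] at hg ⊢
    rw [← he, hg]
  · refine ⟨(XO Γ Z).Pt, inferInstance, inferInstance, p ∘ prO, hp.comp isProperMap_prO, ?_,
      hs.comp surjective_prO, inferInstance, metrizable_XO,
      InvSet.locallyCompactSpace _ isClosed_XO.isLocallyClosed, sigmaCompact_XO,
      totallyDisconnected_XO, stabilizer_XO, fun d _ h => absurd h hX, ?_⟩
    · intro g z
      rw [Function.comp_apply, Function.comp_apply, prO_smul, he]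
    · intro E _ _ _ _ _ _ _ _ _ _ Q hA j
      have hpp : IsProperMap (Prod.map p (id : Cone Q × Cube (j + 1) → Cone Q × Cube (j + 1))) :=
        hp.prodMap isProperMap_id
      have hoo : IsProperMap (Prod.map (prO : (XO Γ Z).Pt → Z)
          (id : Cone Q × Cube (j + 1) → Cone Q × Cube (j + 1))) :=
        isProperMap_prO.prodMap isProperMap_id
      have h8 := IsoU.comp hpp (fun g x => Prod.ext (he g x.1) rfl) hoo (fun g x => rfl)
        (h7 E Q hA j) (isoU_prO Γ (X := Z) E Q hA j)
      exact h8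

/-! ### The universal space -/

/-- The Cantor set, with the trivial action. -/
def CT : Type := ℕ → Bool

instance : TopologicalSpace CT := inferInstanceAs (TopologicalSpace (ℕ → Bool))

instance : CompactSpace CT := inferInstanceAs (CompactSpace (ℕ → Bool))

instance : T2Space CT := inferInstanceAs (T2Space (ℕ → Bool))

instance : TotallyDisconnectedSpace CT := inferInstanceAs (TotallyDisconnectedSpace (ℕ → Bool))

instance : TopologicalSpace.MetrizableSpace CT := by
  have h1 : SecondCountableTopology CT := inferInstanceAs (SecondCountableTopology (ℕ → Bool))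
  exact TopologicalSpace.metrizableSpace_of_t3_secondCountable _

instance (Γ : Type) [Group Γ] : MulAction Γ CT where
  smul _ a := a
  one_smul _ := rfl
  mul_smul _ _ _ := rfl

instance (Γ : Type) [Group Γ] : ContinuousConstSMul Γ CT := ⟨fun _ => continuous_id⟩

/-- Flipping a coordinate. -/
def CT.flip (a : CT) (n : ℕ) : CT := fun k => if k = n then !(a k) else a k

lemma CT.flip_ne (a : CT) (n : ℕ) : a.flip n ≠ a := by
  intro h
  have h1 : (if n = n then !(a n) else a n) = a n := congrFun h n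
  rw [if_pos rfl] at h1
  rcases h2 : a n with _ | _ <;> rw [h2] at h1 <;> exact absurd h1 (by decide)

lemma CT.tendsto_flip (a : CT) : Tendsto (fun n => a.flip n) atTop (𝓝 a) := by
  refine tendsto_pi_nhds.2 fun k => ?_
  refine tendsto_const_nhds.congr' ?_
  filter_upwards [eventually_gt_atTop k] with n hn
  change a k = if k = n then !(a k) else a k
  rw [if_neg hn.ne]

/-- The universal space. -/
def UF (Γ : Type) [Group Γ] : Type := (XO Γ (UU Γ × CT)).Pt

section UF

variable (Γ : Type) [Group Γ]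

instance : TopologicalSpace (UF Γ) := inferInstanceAs (TopologicalSpace (XO Γ (UU Γ × CT)).Pt)

instance : MulAction Γ (UF Γ) := inferInstanceAs (MulAction Γ (XO Γ (UU Γ × CT)).Pt)

instance : ContinuousConstSMul Γ (UF Γ) :=
  inferInstanceAs (ContinuousConstSMul Γ (XO Γ (UU Γ × CT)).Pt)

instance : CompactSpace (UF Γ) := compact_XO (X := UU Γ × CT)

instance : T2Space (UF Γ) := inferInstanceAs (T2Space (XO Γ (UU Γ × CT)).Pt)

instance : TotallyDisconnectedSpace (UF Γ) := totallyDisconnected_XO (X := UU Γ × CT)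

instance : Nonempty (UF Γ) := by
  obtain ⟨z, -⟩ := surjective_prO (Γ := Γ) (X := UU Γ × CT) (fun _ => OP.inf, fun _ => false)
  exact ⟨z⟩

theorem metrizable_UF [Countable Γ] : TopologicalSpace.MetrizableSpace (UF Γ) := by
  have h := metrizable_UU (Γ := Γ)
  exact metrizable_XO (X := UU Γ × CT)

instance : PerfectSpace (UF Γ) := by
  refine ⟨fun z _ => ?_⟩
  let y : CT → UF Γ := fun b => (XO Γ (UU Γ × CT)).pt
    (((prO (Γ := Γ) (X := UU Γ × CT) z).1, b), ((XO Γ (UU Γ × CT)).val z).2)
    ((XO Γ (UU Γ × CT)).val_mem z)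
  have hy : Continuous y :=
    Continuous.subtype_mk ((continuous_const.prodMk continuous_id).prodMk continuous_const) _
  have hyz : y (prO (Γ := Γ) (X := UU Γ × CT) z).2 = z := rfl
  have hyi : ∀ b b', y b = y b' → b = b' := by
    intro b b' h
    exact congrArg (fun w => (prO (Γ := Γ) (X := UU Γ × CT) w).2) h
  obtain ⟨b, hb⟩ : ∃ b, b = (prO (Γ := Γ) (X := UU Γ × CT) z).2 := ⟨_, rfl⟩
  rw [← hb] at hyz
  have h1 : Tendsto (fun n => y (b.flip n)) atTop (𝓝 z) := by
    have h2 := (hy.tendsto b).comp b.tendsto_flip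
    rwa [hyz] at h2
  have h2 : Tendsto (fun n => y (b.flip n)) atTop (𝓝[≠] z) := by
    refine tendsto_nhdsWithin_iff.2 ⟨h1, Eventually.of_forall fun n h => ?_⟩
    have h3 : y (b.flip n) = z := h
    rw [← hyz] at h3
    exact b.flip_ne n (hyi _ _ h3)
  rw [accPt_principal_iff_nhdsWithin]
  have h3 : (univ : Set (UF Γ)) \ {z} = {z}ᶜ := by
    ext w
    simp
  rw [h3]
  exact h2.neBot

variable {Γ}

theorem stabilizer_UF (z : UF Γ) : stabilizer Γ z = ⊥ := stabilizer_XO (X := UU Γ × CT) z

end UF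

/-- ONE FREE CANTOR SYSTEM SUFFICES. -/
theorem universal_free (Γ : Type) [Group Γ] [Countable Γ]
    (E : Type) [AddCommGroup E] [Module ℝ E] [TopologicalSpace E] [T2Space E]
    [ContinuousAdd E] [ContinuousSMul ℝ E] [DistribMulAction Γ E] [SMulCommClass Γ ℝ E]
    [ContinuousConstSMul Γ E] [LocallyConvexSpace ℝ E] (Q : ConvexSpace Γ E)
    (hQ : AmenableAction Γ Q.Pt) (J : ℕ)
    (h : ∀ j ≥ J, GL1 (cp Γ (UF Γ × Cone Q × Cube j)) ≤ E1 (cp Γ (UF Γ × Cone Q × Cube j)))
    {j : ℕ} (hj : J ≤ j) {X : Type} [TopologicalSpace X] [T2Space X] [LocallyCompactSpace X]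
    [MulAction Γ X] [ContinuousConstSMul Γ X] :
    GL1 (cp Γ (X × Cone Q × Cube j)) ≤ E1 (cp Γ (X × Cone Q × Cube j)) := by
  have hA := propA_of_convexSpace Q hQ
  refine universal_suffices Q hQ J (fun j hj => ?_) hj
  have h1 := inj_prO Γ (X := UU Γ × CT) E Q hA j (h j hj)
  have hs : Continuous fun x : UU Γ => ((x, fun _ => false) : UU Γ × CT) :=
    continuous_id.prodMk continuous_const
  have hr : IsProperMap (Prod.fst : UU Γ × CT → UU Γ) := isProperMap_fst_of_compactSpace
  exact GL1_le_E1_of_section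
    (s := Prod.map (fun x : UU Γ => ((x, fun _ => false) : UU Γ × CT))
      (id : Cone Q × Cube j → Cone Q × Cube j))
    (r := Prod.map (Prod.fst : UU Γ × CT → UU Γ) (id : Cone Q × Cube j → Cone Q × Cube j))
    (hs.isProperMap.prodMap isProperMap_id) (fun g x => rfl)
    (hr.prodMap isProperMap_id) (fun g x => rfl) (fun x => rfl) h1

end Pool.Agent.Lib.MP_aa9b81_an.Cut
end

end
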