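import Pool.Agent.Lib.MP_aa9b81_an.TC.MisD
import Pool.Agent.Lib.MP_aa9b81_an.Mg.G033

/-!
# Maximal sets without forbidden subsets

`C` is a `Γ`-set with finite stabilizers (the letters), and for every point `b` of `B` a family of
forbidden finite sets of letters is given, equivariant, locally constant and locally finite. The space
of the pairs `(b, T)` where `T` is a maximal set which contains no forbidden set is a Bernoulli retract
of `B`.
-/

noncomputable section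

namespace Pool.Agent.Lib.MP_aa9b81_an.Cut

open scoped ENNReal Topology ZeroAtInfty
open Filter Topology Set MulAction

section Letters

variable {Γ : Type} [Group Γ]

lemma smul_ne_letter {k : Γ} (hk : k ≠ 1) {a : C₀' Γ} (ha : p₀ a = mkI ⟨k, hk⟩ 1) : k • a ≠ a := by
  obtain ⟨g, x, rfl⟩ := exists_mkC a
  rw [p₀_mk] at ha
  have h2 : g = ⟨k, hk⟩ := congrArg Sigma.fst ha
  subst h2
  have h3 : x⁻¹ * 1 ∈ Subgroup.zpowers k := mkI_eq.1 ha
  rw [mul_one] at h3
  have h4 : x ∈ Subgroup.zpowers k := by simpa using inv_mem h3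
  obtain ⟨m, hm⟩ := h4
  change k ^ m = x at hm
  intro h5
  rw [smul_mkC, eq_comm, mkC_eq] at h5
  have h6 : x⁻¹ * (k * x) = k := by
    rw [← hm, ← zpow_neg, ← zpow_one_add, ← zpow_add]
    have : -m + (1 + m) = 1 := by ring
    rw [this, zpow_one]
  rw [h6] at h5
  obtain ⟨n, hn⟩ := h5
  change (k ^ ex k) ^ n = k at hn
  rw [← zpow_natCast, ← zpow_mul] at hn
  have h7 : k ^ ((ex k : ℤ) * n - 1) = 1 := by
    rw [zpow_sub, zpow_one, hn, mul_inv_cancel]
  have h8 : ((orderOf k : ℕ) : ℤ) ∣ (ex k : ℤ) * n - 1 := orderOf_dvd_iff_zpow_eq_one.2 h7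
  have h9 : ((ex k : ℕ) : ℤ) ∣ (orderOf k : ℤ) := by
    exact_mod_cast Nat.minFac_dvd (orderOf k)
  have h10 : (ex k : ℤ) ∣ 1 := by
    have h11 := h9.trans h8
    have h12 : (ex k : ℤ) ∣ (ex k : ℤ) * n := dvd_mul_right _ _
    have h13 := dvd_sub h12 h11
    simpa using h13
  have h11 : ex k = 1 := by
    have := Int.natAbs_dvd_natAbs.2 h10
    simpa using this
  have h12 : orderOf k = 1 := Nat.minFac_eq_one_iff.1 h11
  exact hk (orderOf_eq_one_iff.1 h12)

lemma exists_letter {ω : Pow (C₀' Γ)} (hω : ∀ i, ∃! c, p₀ c = i ∧ ω c = true) (g : Γ) {k : Γ}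
    (hk : k ≠ 1) : ∃ a, p₀ a = mkI ⟨k, hk⟩ 1 ∧ ω (g • a) = true ∧ ω (g • k • a) = false := by
  obtain ⟨a₁, ⟨h1, h2⟩, h3⟩ := hω (g • mkI ⟨k, hk⟩ 1)
  have ha : p₀ (g⁻¹ • a₁) = mkI ⟨k, hk⟩ 1 := by rw [p₀_smul, h1, inv_smul_smul]
  refine ⟨g⁻¹ • a₁, ha, by rwa [smul_inv_smul], ?_⟩
  by_contra h4
  rw [Bool.not_eq_false] at h4
  have h5 : g • k • g⁻¹ • a₁ = a₁ := by
    refine h3 _ ⟨?_, h4⟩
    rw [p₀_smul, p₀_smul, ha, smul_mkI, mkI_eq.2]
    simp
  refine smul_ne_letter hk ha ?_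
  rw [eq_inv_smul_iff]
  exact h5

end Letters

section Labels

variable {Γ B C : Type} [Group Γ] [TopologicalSpace B] [MulAction Γ B] [MulAction Γ C]

/-- The representative of the orbit of `c`. -/
def orep (Γ : Type) {C : Type} [Group Γ] [MulAction Γ C] (c : C) : C :=
  Quotient.out (Quotient.mk'' c : orbitRel.Quotient Γ C)

lemma orep_smul (g : Γ) (c : C) : orep Γ (g • c) = orep Γ c := by
  have h : (Quotient.mk'' (g • c) : orbitRel.Quotient Γ C) = Quotient.mk'' c :=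
    Quotient.eq''.2 ⟨g, rfl⟩
  unfold orep
  rw [h]

lemma exists_smul_orep (c : C) : ∃ g : Γ, g • orep Γ c = c := by
  have h : (Quotient.mk'' (orep Γ c) : orbitRel.Quotient Γ C) = Quotient.mk'' c :=
    Quotient.out_eq' _
  obtain ⟨g, hg⟩ := Quotient.eq''.1 h.symm
  exact ⟨g, hg⟩

/-- The differences of the letters in a common forbidden set. -/
def Forbidden.dif (F : Forbidden Γ B C) (t : C) : Set Γ :=
  {k | k • t ≠ t ∧ ∃ b σ, F.rel b σ ∧ t ∈ σ ∧ k • t ∈ σ}

/-- The coordinates which distinguish the letters. -/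
def Forbidden.coo (F : Forbidden Γ B C) (t : C) : Set (C₀' Γ) :=
  {a | ∃ k ∈ F.dif t, ∃ h : k ≠ 1, p₀ a = mkI ⟨k, h⟩ 1}

/-- The set of the labels. -/
abbrev Lab (Γ C : Type) [Group Γ] [MulAction Γ C] : Type := C × Set (Set (C₀' Γ))

/-- The label of a letter. -/
def Forbidden.lab (F : Forbidden Γ B C) (ω : Pow (C₀' Γ)) (c : C) : Lab Γ C :=
  (orep Γ c, {A | ∃ g : Γ, g • orep Γ c = c ∧ A = {a | a ∈ F.coo (orep Γ c) ∧ ω (g • a) = true}})

lemma Forbidden.lab_smul (F : Forbidden Γ B C) (h : Γ) (ω : Pow (C₀' Γ)) (c : C) :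
    F.lab (h • ω) (h • c) = F.lab ω c := by
  unfold Forbidden.lab
  rw [orep_smul]
  refine Prod.ext rfl (Set.ext fun A => ?_)
  constructor
  · rintro ⟨g, hg, rfl⟩
    refine ⟨h⁻¹ * g, by rw [mul_smul, hg, inv_smul_smul], ?_⟩
    ext a
    simp only [mem_ofPred_eq]
    rw [mul_smul]
    rfl
  · rintro ⟨g, hg, rfl⟩
    refine ⟨h * g, by rw [mul_smul, hg], ?_⟩
    ext a
    simp only [mem_ofPred_eq]
    rw [mul_smul, Pow.smul_apply, inv_smul_smul]

lemma Forbidden.lab_ne (F : Forbidden Γ B C) {ω : Pow (C₀' Γ)}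
    (hω : ∀ i, ∃! c, p₀ c = i ∧ ω c = true) {b : B} {σ : Set C} (hσ : F.rel b σ) {c c' : C}
    (hc : c ∈ σ) (hc' : c' ∈ σ) (hne : c' ≠ c) : F.lab ω c' ≠ F.lab ω c := by
  intro hl
  obtain ⟨g, hg⟩ := exists_smul_orep (Γ := Γ) c
  have h1 : orep Γ c' = orep Γ c := congrArg Prod.fst hl
  have h2 : {a | a ∈ F.coo (orep Γ c) ∧ ω (g • a) = true} ∈ (F.lab ω c').2 := by
    rw [hl]
    exact ⟨g, hg, rfl⟩
  obtain ⟨g', hg', hA⟩ := h2
  rw [h1] at hg' hA
  obtain ⟨t, ht⟩ : ∃ t, t = orep Γ c := ⟨_, rfl⟩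
  rw [← ht] at hg hg' hA
  obtain ⟨k, hk⟩ : ∃ k, k = g⁻¹ * g' := ⟨_, rfl⟩
  have hkt : k • t = g⁻¹ • c' := by rw [hk, mul_smul, hg']
  have htc : t = g⁻¹ • c := by rw [← hg, inv_smul_smul]
  have hkne : k • t ≠ t := by
    rw [hkt]
    intro h3
    rw [htc] at h3
    exact hne (MulAction.injective g⁻¹ h3)
  have hk1 : k ≠ 1 := by
    intro h3
    rw [h3, one_smul] at hkne
    exact hkne rfl
  have hkd : k ∈ F.dif t := by
    refine ⟨hkne, g⁻¹ • b, _, F.smul g⁻¹ b σ hσ, ?_, ?_⟩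
    · rw [htc]
      exact mem_image_of_mem _ hc
    · rw [hkt]
      exact mem_image_of_mem _ hc'
  obtain ⟨a, ha1, ha2, ha3⟩ := exists_letter hω g hk1
  have h3 : a ∈ {a | a ∈ F.coo t ∧ ω (g • a) = true} := ⟨⟨k, hkd, hk1, ha1⟩, ha2⟩
  rw [hA] at h3
  have h4 : ω (g' • a) = true := h3.2
  have h5 : g • k • a = g' • a := by rw [hk, mul_smul, smul_inv_smul]
  rw [h5, h4] at ha3
  exact Bool.false_ne_true ha3.symm

variable (hC : ∀ c : C, Finite (stabilizer Γ c))

include hC in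
lemma finite_transporter (t c : C) : {g : Γ | g • t = c}.Finite := by
  rcases Set.eq_empty_or_nonempty {g : Γ | g • t = c} with h | ⟨g₀, hg₀⟩
  · rw [h]
    exact Set.finite_empty
  · have h1 : ((fun g => g₀ * g) '' (stabilizer Γ t : Set Γ)).Finite :=
      (Set.toFinite (stabilizer Γ t : Set Γ)).image _
    refine h1.subset ?_
    intro g hg
    refine ⟨g₀⁻¹ * g, ?_, mul_inv_cancel_left g₀ g⟩
    change (g₀⁻¹ * g) • t = t
    have h2 : g₀ • t = c := hg₀
    have h3 : g • t = c := hg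
    rw [mul_smul, h3, ← h2, inv_smul_smul]

include hC in
lemma Forbidden.finite_dif (F : Forbidden Γ B C) (t : C) : (F.dif t).Finite := by
  have h1 : (⋃ σ ∈ {σ | t ∈ σ ∧ ∃ b, F.rel b σ}, σ).Finite :=
    (F.locallyFinite t).biUnion fun σ hσ => F.finite _ σ hσ.2.choose_spec
  have h2 : (⋃ c ∈ (⋃ σ ∈ {σ | t ∈ σ ∧ ∃ b, F.rel b σ}, σ), {g : Γ | g • t = c}).Finite :=
    h1.biUnion fun c _ => finite_transporter hC t c
  refine h2.subset ?_
  rintro k ⟨-, b, σ, hσ, ht, hk⟩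
  exact mem_biUnion (mem_biUnion (show σ ∈ {σ | t ∈ σ ∧ ∃ b, F.rel b σ} from ⟨ht, b, hσ⟩) hk) rfl

include hC in
lemma Forbidden.finite_coo (F : Forbidden Γ B C) (t : C) : (F.coo t).Finite := by
  have h1 : (⋃ k ∈ F.dif t, {a : C₀' Γ | ∃ h : k ≠ 1, p₀ a = mkI ⟨k, h⟩ 1}).Finite := by
    refine (F.finite_dif hC t).biUnion fun k _ => ?_
    by_cases hk : k = 1
    · refine Set.Finite.subset Set.finite_empty ?_
      rintro a ⟨h, -⟩
      exact absurd hk h
    · refine (finite_fibre (mkI ⟨k, hk⟩ 1)).subset ?_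
      rintro a ⟨h, ha⟩
      exact ha
  refine h1.subset ?_
  rintro a ⟨k, hk, h⟩
  exact mem_biUnion hk h

include hC in
lemma Forbidden.lab_eventually (F : Forbidden Γ B C) (ω : Pow (C₀' Γ)) (c : C) :
    ∀ᶠ ω' in 𝓝 ω, F.lab ω' c = F.lab ω c := by
  have h1 : (⋃ g ∈ {g : Γ | g • orep Γ c = c}, (fun a => g • a) '' F.coo (orep Γ c)).Finite :=
    (finite_transporter hC _ c).biUnion fun g _ => (F.finite_coo hC _).image _
  have h2 : ∀ᶠ ω' in 𝓝 ω, ∀ x ∈ (⋃ g ∈ {g : Γ | g • orep Γ c = c},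
      (fun a => g • a) '' F.coo (orep Γ c)), ω' x = ω x := by
    refine (eventually_all_finite h1).2 fun x _ => ?_
    exact ((Pow.isOpen_eval x (ω x)).mem_nhds rfl)
  filter_upwards [h2] with ω' h3
  unfold Forbidden.lab
  refine Prod.ext rfl (Set.ext fun A => ?_)
  have h4 : ∀ g : Γ, g • orep Γ c = c → {a | a ∈ F.coo (orep Γ c) ∧ ω' (g • a) = true} =
      {a | a ∈ F.coo (orep Γ c) ∧ ω (g • a) = true} := by
    intro g hg
    ext a
    simp only [mem_ofPred_eq]
    refine and_congr_right fun ha => ?_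
    rw [h3 (g • a) (mem_biUnion (show g ∈ {g : Γ | g • orep Γ c = c} from hg)
      (mem_image_of_mem _ ha))]
  constructor
  · rintro ⟨g, hg, rfl⟩
    exact ⟨g, hg, h4 g hg⟩
  · rintro ⟨g, hg, rfl⟩
    exact ⟨g, hg, (h4 g hg).symm⟩

end Labels

section Maximal

variable {Γ B C : Type} [Group Γ] [TopologicalSpace B] [MulAction Γ B] [MulAction Γ C]

lemma Forbidden.mem_maxSets (F : Forbidden Γ B C) (x : B × Pow C) :
    x ∈ F.maxSets.carrier ↔ F.Free x.1 x.2 ∧
      ∀ c, x.2 c = false → ∃ σ, F.rel x.1 σ ∧ c ∈ σ ∧ ∀ c' ∈ σ, c' ≠ c → x.2 c' = true := by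
  classical
  refine and_congr_right fun hx => ⟨fun h c hc => ?_, fun h T hT hTx => ?_⟩
  · by_contra hcon
    push Not at hcon
    have h1 : F.Free x.1 (fun c' => if c' = c then true else x.2 c') := by
      intro σ hσ
      by_cases hcσ : c ∈ σ
      · obtain ⟨c', hc', hne, h2⟩ := hcon σ hσ hcσ
        refine ⟨c', hc', ?_⟩
        change (if c' = c then true else x.2 c') = false
        rw [if_neg hne]
        simpa using h2
      · obtain ⟨c', hc', h2⟩ := hx σ hσ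
        refine ⟨c', hc', ?_⟩
        change (if c' = c then true else x.2 c') = false
        rw [if_neg, h2]
        rintro rfl
        exact hcσ hc'
    have h2 := h _ h1 (fun c' hc' => by
      rw [hc']
      simp)
    have h3 : (if c = c then true else x.2 c) = x.2 c := congrFun h2 c
    rw [if_pos rfl, hc] at h3
    exact Bool.false_ne_true h3.symm
  · funext c
    rcases h1 : x.2 c with _ | _
    · obtain ⟨σ, hσ, hcσ, h2⟩ := h c h1
      obtain ⟨c', hc', h3⟩ := hT σ hσ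
      by_cases h4 : c' = c
      · rwa [h4] at h3
      · rw [hTx c' (h2 c' hc' h4)] at h3
        exact absurd h3 (by decide)
    · exact hTx c h1

lemma Forbidden.rel_eventually (F : Forbidden Γ B C) (b : B) (σ : Set C) :
    ∀ᶠ b' in 𝓝 b, (F.rel b' σ ↔ F.rel b σ) := by
  by_cases h : F.rel b σ
  · filter_upwards [(F.clopen σ).isOpen.mem_nhds h] with b' hb'
    exact ⟨fun _ => h, fun _ => hb'⟩
  · filter_upwards [(F.clopen σ).compl.isOpen.mem_nhds h] with b' hb'
    exact ⟨fun h' => absurd h' hb', fun h' => absurd h' h⟩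

lemma Forbidden.isClosed_maxSets (F : Forbidden Γ B C) : IsClosed F.maxSets.carrier := by
  have hev : ∀ (c : C) (b : Bool), IsClopen {x : B × Pow C | x.2 c = b} := fun c b =>
    ⟨(Pow.isClosed_eval c b).preimage continuous_snd, (Pow.isOpen_eval c b).preimage continuous_snd⟩
  have hre : ∀ σ, IsClopen {x : B × Pow C | F.rel x.1 σ} := fun σ =>
    (F.clopen σ).preimage continuous_fst
  have e : F.maxSets.carrier = (⋂ σ, {x : B × Pow C | F.rel x.1 σ → ∃ c ∈ σ, x.2 c = false}) ∩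
      ⋂ c, {x : B × Pow C | x.2 c = false →
        ∃ σ, F.rel x.1 σ ∧ c ∈ σ ∧ ∀ c' ∈ σ, c' ≠ c → x.2 c' = true} := by
    ext x
    rw [F.mem_maxSets x]
    simp only [mem_inter_iff, mem_iInter, mem_ofPred_eq]
    rfl
  rw [e]
  refine (isClosed_iInter fun σ => ?_).inter (isClosed_iInter fun c => ?_)
  · by_cases hσ : ∃ b, F.rel b σ
    · obtain ⟨b, hb⟩ := hσ
      have e1 : {x : B × Pow C | F.rel x.1 σ → ∃ c ∈ σ, x.2 c = false} =
          {x : B × Pow C | F.rel x.1 σ}ᶜ ∪ ⋃ c ∈ σ, {x : B × Pow C | x.2 c = false} := by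
        ext x
        simp only [mem_ofPred_eq, mem_union, mem_compl_iff, mem_iUnion, exists_prop]
        exact imp_iff_not_or
      rw [e1]
      exact (hre σ).compl.isClosed.union ((F.finite b σ hb).isClosed_biUnion fun c _ =>
        (hev c false).isClosed)
    · have e1 : {x : B × Pow C | F.rel x.1 σ → ∃ c ∈ σ, x.2 c = false} = univ := by
        ext x
        simp only [mem_ofPred_eq, mem_univ, iff_true]
        exact fun h => absurd ⟨_, h⟩ hσ
      rw [e1]
      exact isClosed_univ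
  · have e1 : {x : B × Pow C | x.2 c = false →
        ∃ σ, F.rel x.1 σ ∧ c ∈ σ ∧ ∀ c' ∈ σ, c' ≠ c → x.2 c' = true} =
        {x : B × Pow C | x.2 c = true} ∪ ⋃ σ ∈ {σ | c ∈ σ ∧ ∃ b, F.rel b σ},
          ({x : B × Pow C | F.rel x.1 σ} ∩ ⋂ c' ∈ {c' | c' ∈ σ ∧ c' ≠ c},
            {x : B × Pow C | x.2 c' = true}) := by
      ext x
      simp only [mem_ofPred_eq, mem_union, mem_iUnion, exists_prop, mem_inter_iff, mem_iInter]
      constructor
      · intro h
        rcases h1 : x.2 c with _ | _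
        · right
          obtain ⟨σ, hσ, hc, h2⟩ := h h1
          exact ⟨σ, ⟨hc, _, hσ⟩, hσ, fun c' hc' => h2 c' hc'.1 hc'.2⟩
        · left
          rfl
      · rintro (h | ⟨σ, ⟨hc, -⟩, hσ, h2⟩) h1
        · rw [h] at h1
          exact absurd h1 (by decide)
        · exact ⟨σ, hσ, hc, fun c' hc' hne => h2 c' ⟨hc', hne⟩⟩
    rw [e1]
    refine (hev c true).isClosed.union ((F.locallyFinite c).isClosed_biUnion fun σ _ => ?_)
    exact (hre σ).isClosed.inter (isClosed_biInter fun c' _ => (hev c' true).isClosed)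

end Maximal

end Pool.Agent.Lib.MP_aa9b81_an.Cut
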