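import Pool.Agent.Lib.MP_aa9b81_an.Mg.G001
import Pool.Agent.Lib.MP_aa9b81_an.Mg.G077

/-!
# Total cutting theorem: the statements in the elementary form
-/

noncomputable section

namespace Pool.Agent.Lib.MP_aa9b81_an.Cut

open scoped ENNReal Topology ZeroAtInfty
open Filter Topology Set

section

variable {Γ E : Type} [Group Γ] [AddCommGroup E] [Module ℝ E] [TopologicalSpace E]
  [DistribMulAction Γ E] [SMulCommClass Γ ℝ E] [T2Space E] [ContinuousAdd E] [ContinuousSMul ℝ E]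
  [ContinuousConstSMul Γ E]

variable (Q : ConvexSpace Γ E) {Y Z : Type} [TopologicalSpace Y] [T2Space Y]
  [LocallyCompactSpace Y] [MulAction Γ Y] [ContinuousConstSMul Γ Y] [TopologicalSpace Z]
  [T2Space Z] [LocallyCompactSpace Z] [MulAction Γ Z] [ContinuousConstSMul Γ Z]

/-- If the groups `N_j(Y)` vanish for `j ≥ J`, then `Y × Q → Y` induces bijections for `j > J`. -/
theorem k1Bij_prQ_of_zero (hA : PropA Γ) {J : ℕ} (h : ∀ j ≥ J, K1Zero Γ (Y × Cone Q × Cube j)) :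
    ∀ j ≥ J + 1, K1Bij Γ (fun x : Y × Q.Pt × Cube j => ((x.1, x.2.2) : Y × Cube j)) := by
  have hcone := cone_locallyCompact Q
  intro j hj
  obtain ⟨i, rfl⟩ : ∃ i, j = i + 1 := ⟨j - 1, by omega⟩
  obtain ⟨e⟩ := exists_cubeHomeo i
  have he : ∀ (g : Γ) (v : Cube (i + 1)), e (g • v) = g • e v := fun g v => rfl
  refine (k1Bij_iff (isProperMap_prQ Q) (prQ_smul Q)).2 ((isoU_prQ_congr Q e he).2 ?_)
  refine isoU_prQ_of_le Q hA (k1Zero_iff.1 (h i (by omega))) ?_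
  exact GL1_le_E1_of_homeomorph
    ((Homeomorph.refl Y).prodCongr ((Homeomorph.refl (Cone Q)).prodCongr e)) (fun g x => rfl)
    (k1Zero_iff.1 (h (i + 1) (by omega)))

/-- If `Y × Q → Y` induces bijections for `j ≥ J`, then the groups `N_j(Y)` vanish for `j ≥ J`. -/
theorem zero_of_k1Bij_prQ (hA : PropA Γ) {J : ℕ}
    (h : ∀ j ≥ J, K1Bij Γ (fun x : Y × Q.Pt × Cube j => ((x.1, x.2.2) : Y × Cube j))) :
    ∀ j ≥ J, K1Zero Γ (Y × Cone Q × Cube j) := by
  have hcone := cone_locallyCompact Q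
  intro j hj
  obtain ⟨e⟩ := exists_cubeHomeo j
  have he : ∀ (g : Γ) (v : Cube (j + 1)), e (g • v) = g • e v := fun g v => rfl
  have h1 : ∀ j ≥ J, IsoU Γ (prQ Q Y (Cube j)) := fun j hj =>
    (k1Bij_iff (isProperMap_prQ Q) (prQ_smul Q)).1 (h j hj)
  exact k1Zero_iff.2 (le_of_isoU_prQ Q hA (h1 j hj)
    ((isoU_prQ_congr Q e he).1 (h1 (j + 1) (by omega))))

/-- Isomorphisms of the groups `N_j` preserve the Baum-Connes property. -/
theorem eventually_k1Bij_prQ_iff (hA : PropA Γ) {p : Z → Y} (hp : IsProperMap p)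
    (he : ∀ (g : Γ) z, p (g • z) = g • p z)
    (h : ∀ j, IsoU Γ (Prod.map p (id : Cone Q × Cube (j + 1) → Cone Q × Cube (j + 1)))) :
    (∀ᶠ j in atTop, K1Bij Γ (fun x : Y × Q.Pt × Cube j => ((x.1, x.2.2) : Y × Cube j))) ↔
      ∀ᶠ j in atTop, K1Bij Γ (fun x : Z × Q.Pt × Cube j => ((x.1, x.2.2) : Z × Cube j)) := by
  have hcone := cone_locallyCompact Q
  have hiff : ∀ j : ℕ, K1Zero Γ (Y × Cone Q × Cube (j + 1)) ↔
      K1Zero Γ (Z × Cone Q × Cube (j + 1)) := by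
    intro j
    rw [k1Zero_iff, k1Zero_iff]
    obtain ⟨h1, h2⟩ := h j
    have hp' : IsProperMap (Prod.map p (id : Cone Q × Cube (j + 1) → Cone Q × Cube (j + 1))) :=
      hp.prodMap isProperMap_id
    have he' : ∀ (g : Γ) x,
        Prod.map p (id : Cone Q × Cube (j + 1) → Cone Q × Cube (j + 1)) (g • x) =
          g • Prod.map p (id : Cone Q × Cube (j + 1) → Cone Q × Cube (j + 1)) x :=
      fun g x => Prod.ext (he g x.1) rfl
    constructor
    · intro hY v hv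
      obtain ⟨u, hu, huv⟩ := h2 v hv
      have h3 := mul_mem (BA1_mem_E1 hp' he' (hY hu)) huv
      rwa [mul_inv_cancel_left] at h3
    · intro hZ u hu
      exact h1 u hu (hZ (BA1_mem_GL1 hp' he' hu))
  rw [eventually_atTop, eventually_atTop]
  constructor
  · rintro ⟨J, hJ⟩
    refine ⟨J + 2, k1Bij_prQ_of_zero Q hA (J := J + 1) fun j hj => ?_⟩
    obtain ⟨i, rfl⟩ : ∃ i, j = i + 1 := ⟨j - 1, by omega⟩
    exact (hiff i).1 (zero_of_k1Bij_prQ Q hA hJ (i + 1) (by omega))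
  · rintro ⟨J, hJ⟩
    refine ⟨J + 2, k1Bij_prQ_of_zero Q hA (J := J + 1) fun j hj => ?_⟩
    obtain ⟨i, rfl⟩ : ∃ i, j = i + 1 := ⟨j - 1, by omega⟩
    exact (hiff i).2 (zero_of_k1Bij_prQ Q hA hJ (i + 1) (by omega))

end

end Pool.Agent.Lib.MP_aa9b81_an.Cut
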